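import Pool.Agent.H169R3.FI.Gen

set_option autoImplicit false

/-! Certificates (finite transducers) for freeness: soundness. -/

namespace Pool.Agent.H169R3.FI

open Pointwise FreeGroup

/-- transition tables: `((state, letter), (new state, output))` -/
abbrev Tab := List ((List (ℕ × Bool) × (ℕ × Bool)) × (List (ℕ × Bool) × List (ℕ × Bool)))

/-- table lookup -/
def look (tab : Tab) (k : List (ℕ × Bool) × (ℕ × Bool)) :
    Option (List (ℕ × Bool) × List (ℕ × Bool)) :=
  @List.lookup _ _ instBEqOfDecidableEq k tab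

/-- one step of the transducer -/
def step (tab : Tab) (s : Option (List (ℕ × Bool) × List (ℕ × Bool))) (l : ℕ × Bool) :
    Option (List (ℕ × Bool) × List (ℕ × Bool)) :=
  s.bind fun x => (look tab (x.1, l)).map fun y => (y.1, x.2 ++ y.2)

/-- reading a word from the initial state `[]`, with a default value in case of failure -/
def runD (tab : Tab) (w : List (ℕ × Bool)) : List (ℕ × Bool) × List (ℕ × Bool) :=
  (w.foldl (step tab) (some ([], []))).getD ([(0, true)], [])

/-- semantics of reading -/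
def Rd (tab : Tab) : List (ℕ × Bool) → List (ℕ × Bool) → List (ℕ × Bool) → FreeGroup ℕ → Prop
  | q, [], q', g => q' = q ∧ g = 1
  | q, l :: w, q', g => ∃ y, look tab (q, l) = some y ∧ ∃ g', Rd tab y.1 w q' g' ∧ g = mk y.2 * g'

lemma foldl_none (tab : Tab) (w : List (ℕ × Bool)) : w.foldl (step tab) none = none := by
  induction w with
  | nil => rfl
  | cons l w ih => exact ih

lemma foldl_Rd (tab : Tab) (w : List (ℕ × Bool)) : ∀ (q o q' o' : List (ℕ × Bool)),
    w.foldl (step tab) (some (q, o)) = some (q', o') → ∃ g, Rd tab q w q' g ∧ mk o' = mk o * g := by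
  induction w with
  | nil =>
    intro q o q' o' h
    simp only [List.foldl_nil, Option.some.injEq, Prod.mk.injEq] at h
    obtain ⟨rfl, rfl⟩ := h
    exact ⟨1, ⟨rfl, rfl⟩, by simp⟩
  | cons l w ih =>
    intro q o q' o' h
    rw [List.foldl_cons] at h
    cases hy : look tab (q, l) with
    | none =>
      have : step tab (some (q, o)) l = none := by
        unfold step
        simp [hy]
      rw [this, foldl_none] at h
      exact absurd h (by simp)
    | some y =>
      have : step tab (some (q, o)) l = some (y.1, o ++ y.2) := by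
        unfold step
        simp [hy]
      rw [this] at h
      obtain ⟨g, h1, h2⟩ := ih _ _ _ _ h
      refine ⟨mk y.2 * g, ⟨y, hy, g, h1, rfl⟩, ?_⟩
      rw [h2, mk_app, mul_assoc]

lemma Rd_foldl (tab : Tab) (w : List (ℕ × Bool)) : ∀ (q o q' : List (ℕ × Bool)) (g : FreeGroup ℕ),
    Rd tab q w q' g → ∃ o', w.foldl (step tab) (some (q, o)) = some (q', o') ∧
      mk o' = mk o * g := by
  induction w with
  | nil =>
    rintro q o q' g ⟨rfl, rfl⟩
    exact ⟨o, rfl, by simp⟩
  | cons l w ih =>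
    rintro q o q' g ⟨y, hy, g', h1, rfl⟩
    obtain ⟨o', h2, h3⟩ := ih y.1 (o ++ y.2) q' g' h1
    refine ⟨o', ?_, ?_⟩
    · rw [List.foldl_cons]
      have : step tab (some (q, o)) l = some (y.1, o ++ y.2) := by
        unfold step
        simp [hy]
      rw [this, h2]
    · rw [h3, mk_app, mul_assoc]

lemma Rd_append (tab : Tab) (u v : List (ℕ × Bool)) : ∀ (q q' : List (ℕ × Bool))
    (g : FreeGroup ℕ), Rd tab q (u ++ v) q' g ↔
      ∃ r g1 g2, Rd tab q u r g1 ∧ Rd tab r v q' g2 ∧ g = g1 * g2 := by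
  induction u with
  | nil =>
    intro q q' g
    constructor
    · intro h; exact ⟨q, 1, g, ⟨rfl, rfl⟩, h, by simp⟩
    · rintro ⟨r, g1, g2, ⟨rfl, rfl⟩, h, rfl⟩
      simpa using h
  | cons l u ih =>
    intro q q' g
    constructor
    · rintro ⟨y, hy, g', h, rfl⟩
      obtain ⟨r, g1, g2, h1, h2, rfl⟩ := (ih _ _ _).1 h
      exact ⟨r, mk y.2 * g1, g2, ⟨y, hy, g1, h1, rfl⟩, h2, by rw [mul_assoc]⟩
    · rintro ⟨r, g1, g2, ⟨y, hy, g', h, rfl⟩, h2, rfl⟩
      exact ⟨y, hy, g' * g2, (ih _ _ _).2 ⟨r, g', g2, h, h2, rfl⟩, by rw [mul_assoc]⟩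

lemma Rd_func (tab : Tab) (w : List (ℕ × Bool)) : ∀ (q q1 q2 : List (ℕ × Bool))
    (g1 g2 : FreeGroup ℕ), Rd tab q w q1 g1 → Rd tab q w q2 g2 → q1 = q2 ∧ g1 = g2 := by
  induction w with
  | nil =>
    rintro q q1 q2 g1 g2 ⟨rfl, rfl⟩ ⟨rfl, rfl⟩
    exact ⟨rfl, rfl⟩
  | cons l w ih =>
    rintro q q1 q2 g1 g2 ⟨y, hy, g', h, rfl⟩ ⟨y', hy', g'', h', rfl⟩
    rw [hy] at hy'
    obtain rfl := Option.some.inj hy'
    obtain ⟨rfl, rfl⟩ := ih _ _ _ _ _ h h'
    exact ⟨rfl, rfl⟩

/-- the table is closed under inversion -/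
def TabOK (tab : Tab) : Prop :=
  ∀ e ∈ tab, ∃ e' ∈ tab, look tab (e.2.1, (e.1.2.1, !e.1.2.2)) = some e'.2 ∧
    e'.2.1 = e.1.1 ∧ reduce (e.2.2 ++ e'.2.2) = []

lemma mem_of_lookup' {A C : Type*} [BEq A] [LawfulBEq A] {l : List (A × C)} {a : A} {c : C}
    (h : l.lookup a = some c) : (a, c) ∈ l := by
  induction l with
  | nil => simp at h
  | cons x l ih =>
    rw [List.lookup_cons] at h
    by_cases hx : a = x.1
    · simp only [hx, beq_self_eq_true] at h
      obtain rfl := Option.some.inj h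
      rw [hx]
      simp
    · have : (a == x.1) = false := by simpa using hx
      rw [this] at h
      exact List.mem_cons_of_mem _ (ih h)

lemma mem_of_look {tab : Tab} {a : List (ℕ × Bool) × (ℕ × Bool)}
    {c : List (ℕ × Bool) × List (ℕ × Bool)} (h : look tab a = some c) : (a, c) ∈ tab :=
  @mem_of_lookup' _ _ instBEqOfDecidableEq _ _ _ _ h

lemma Rd_step {tab : Tab} (ht : TabOK tab) {w w' : List (ℕ × Bool)} (h : Red.Step w w')
    {q q' : List (ℕ × Bool)} {g : FreeGroup ℕ} (hr : Rd tab q w q' g) : Rd tab q w' q' g := by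
  obtain ⟨⟩ := h
  rename_i u v x b
  rw [Rd_append] at hr ⊢
  obtain ⟨r, g1, g2, h1, ⟨y, hy, g3, ⟨y', hy', g4, h2, rfl⟩, rfl⟩, rfl⟩ := hr
  obtain ⟨e', _, h3, h4, h5⟩ := ht _ (mem_of_look hy)
  have h6 : e'.2 = y' := Option.some.inj (h3.symm.trans hy')
  rw [h6] at h4 h5
  have h4' : y'.1 = r := h4
  rw [h4'] at h2
  refine ⟨r, g1, g4, h1, h2, ?_⟩
  have h7 : (mk y.2 : FreeGroup ℕ) * mk y'.2 = 1 := by
    rw [← mk_app, ← reduce.self, h5]
    rfl
  rw [← mul_assoc (mk y.2), h7, one_mul]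

lemma Rd_red {tab : Tab} (ht : TabOK tab) {w w' : List (ℕ × Bool)} (h : Red w w')
    {q q' : List (ℕ × Bool)} {g : FreeGroup ℕ} (hr : Rd tab q w q' g) : Rd tab q w' q' g := by
  induction h with
  | refl => exact hr
  | tail _ h2 ih => exact Rd_step ht h2 ih

/-- prefixes -/
def pre (w : List (ℕ × Bool)) : List (List (ℕ × Bool)) :=
  (List.range (w.length + 1)).map fun i => w.take i

lemma mem_pre {w t : List (ℕ × Bool)} : t ∈ pre w ↔ ∃ v, w = t ++ v := by
  unfold pre
  rw [List.mem_map]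
  constructor
  · rintro ⟨i, _, rfl⟩
    exact ⟨w.drop i, (List.take_append_drop i w).symm⟩
  · rintro ⟨v, rfl⟩
    exact ⟨t.length, by simp, by simp⟩

lemma mem_Pr_iff_pre {w : List (ℕ × Bool)} {x : FreeGroup ℕ} :
    x ∈ Pr w ↔ ∃ t ∈ pre w, x = mk t := by
  rw [mem_Pr]
  constructor
  · rintro ⟨u, v, h, rfl⟩; exact ⟨u, mem_pre.2 ⟨v, h⟩, rfl⟩
  · rintro ⟨t, ht, rfl⟩
    obtain ⟨v, h⟩ := mem_pre.1 ht
    exact ⟨t, v, h, rfl⟩

/-- the generators are read correctly -/
def C1 (B : List (List (ℕ × Bool))) (tab : Tab) : Prop :=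
  ∀ i ∈ List.range B.length, ∀ b ∈ [true, false],
    (runD tab (lt B (i, b))).1 = [] ∧ reduce (runD tab (lt B (i, b))).2 = [(i, b)]

/-- every letter has a vertex which is not covered by the far side -/
def C2 (B : List (List (ℕ × Bool))) (tab : Tab) : Prop :=
  ∀ i ∈ List.range B.length, ∀ b ∈ [true, false], ∃ t ∈ pre (lt B (i, b)),
    ∀ j ∈ List.range B.length, ∀ c ∈ [true, false], ∀ s ∈ pre (lt B (j, c)),
      (runD tab (reduce (t ++ invRev s))).1 = [] →
        (reduce (runD tab (reduce (t ++ invRev s))).2).head? = some (i, b) ∨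
        (reduce ((runD tab (reduce (t ++ invRev s))).2 ++ [(j, c)])).head? = some (i, b)

lemma runD_of_Rd {tab : Tab} {w : List (ℕ × Bool)} {g : FreeGroup ℕ} (h : Rd tab [] w [] g) :
    (runD tab w).1 = [] ∧ mk (runD tab w).2 = g := by
  obtain ⟨o, h1, h2⟩ := Rd_foldl tab w [] [] [] g h
  unfold runD
  rw [h1]
  refine ⟨rfl, ?_⟩
  show mk o = g
  rw [h2]
  exact one_mul g

lemma Rd_of_runD {tab : Tab} {w : List (ℕ × Bool)} (h : (runD tab w).1 = []) :
    Rd tab [] w [] (mk (runD tab w).2) := by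
  unfold runD at h ⊢
  cases hr : w.foldl (step tab) (some ([], [])) with
  | none =>
    rw [hr] at h
    simp at h
  | some x =>
    rw [hr] at h
    simp only [Option.getD_some] at h ⊢
    have h1 : w.foldl (step tab) (some ([], [])) = some ([], x.2) := by
      rw [hr, ← h]
    obtain ⟨g, h2, h3⟩ := foldl_Rd tab w _ _ _ _ h1
    have h4 : mk x.2 = g := by rw [h3]; exact one_mul g
    rw [h4]
    exact h2

lemma mem_two (b : Bool) : b ∈ [true, false] := by cases b <;> simp

lemma Rd_lt {B : List (List (ℕ × Bool))} {tab : Tab} (h1 : C1 B tab) {l : ℕ × Bool}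
    (hl : l.1 < B.length) : Rd tab [] (lt B l) [] (mk [l]) := by
  obtain ⟨h2, h3⟩ := h1 l.1 (List.mem_range.2 hl) l.2 (mem_two _)
  have h4 := Rd_of_runD h2
  rwa [← reduce.self (L := (runD tab (lt B (l.1, l.2))).2), h3] at h4

lemma Rd_sub {B : List (List (ℕ × Bool))} {tab : Tab} (h1 : C1 B tab) {p : List (ℕ × Bool)}
    (hp : Valid B p) : Rd tab [] (sub (lt B) p) [] (mk p) := by
  induction p with
  | nil => exact ⟨rfl, rfl⟩
  | cons l p ih =>
    rw [sub_cons, Rd_append]
    exact ⟨[], mk [l], mk p, Rd_lt h1 (hp l (by simp)), ih (fun m hm => hp m (by simp [hm])), rfl⟩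

/-- group injectivity -/
lemma mk_eq_of_cert {B : List (List (ℕ × Bool))} {tab : Tab} (ht : TabOK tab) (h1 : C1 B tab)
    {p q : List (ℕ × Bool)} (hp : Valid B p) (hq : Valid B q)
    (h : (mk (sub (lt B) p) : FreeGroup ℕ) = mk (sub (lt B) q)) :
    (mk p : FreeGroup ℕ) = mk q := by
  have h2 := Rd_red ht reduce.red (Rd_sub h1 hp)
  have h3 := Rd_red ht reduce.red (Rd_sub h1 hq)
  rw [reduce.sound h] at h2
  exact (Rd_func _ _ _ _ _ _ _ h2 h3).2

lemma exists_exit (S : Set (FreeGroup ℕ)) (h0 : (1 : FreeGroup ℕ) ∈ S) (p : List (ℕ × Bool))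
    (h : ¬ Pr p ⊆ S) : ∃ u l v, p = u ++ l :: v ∧ mk u ∈ S ∧ mk u * mk [l] ∉ S := by
  induction p using List.reverseRecOn with
  | nil =>
    exfalso
    apply h
    rw [Pr_nil]
    simpa using h0
  | append_singleton p l ih =>
    by_cases hp : Pr p ⊆ S
    · refine ⟨p, l, [], by simp, hp (mk_mem_Pr p), ?_⟩
      intro h1
      apply h
      intro x hx
      rw [mem_Pr] at hx
      obtain ⟨u, v, h2, rfl⟩ := hx
      rcases List.eq_nil_or_concat v with rfl | ⟨w, c, rfl⟩
      · rw [List.append_nil] at h2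
        rw [← h2, mk_app]
        exact h1
      · rw [List.concat_eq_append, ← List.append_assoc] at h2
        exact hp (mem_Pr.2 ⟨u, w, (List.append_inj' h2 rfl).1, rfl⟩)
    · obtain ⟨u, m, v, rfl, h1, h2⟩ := ih hp
      exact ⟨u, m, v ++ [l], by simp, h1, h2⟩

lemma Pr_sub_of_cert {B : List (List (ℕ × Bool))} {tab : Tab} (h0 : ∀ b ∈ B, b ≠ [])
    (ht : TabOK tab) (h1 : C1 B tab) (h2 : C2 B tab) {p q : List (ℕ × Bool)} (hp : Valid B p)
    (hq : Valid B q) (h : Pr (sub (lt B) p) ⊆ Pr (sub (lt B) q)) : Pr p ⊆ Pr q := by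
  by_contra hcon
  obtain ⟨u, l, v, rfl, h3, h4⟩ := exists_exit (Pr q) (one_mem_Pr q) p hcon
  have hl : l.1 < B.length := hp l (by simp)
  have hside := side_avoid q (mk u) l h3 h4
  obtain ⟨t, ht1, ht2⟩ := h2 l.1 (List.mem_range.2 hl) l.2 (mem_two _)
  have hsub : ∀ y ∈ Pr (lt B l), hom (lt B) (mk u) * y ∈ Pr (sub (lt B) q) := by
    intro y hy
    apply h
    rw [mem_Pr_sub (lt_compat B)]
    right
    exact ⟨u, l, v, rfl, Set.smul_mem_smul_set hy⟩
  -- the case where the image vertex is `1` needs an edge of `q`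
  have hcov : ∃ u' m v', q = u' ++ m :: v' ∧
      hom (lt B) (mk u) * mk t ∈ hom (lt B) (mk u') • Pr (lt B m) := by
    have h5 := hsub (mk t) (mem_Pr_iff_pre.2 ⟨t, ht1, rfl⟩)
    rw [mem_Pr_sub (lt_compat B)] at h5
    rcases h5 with h5 | h5
    · cases q with
      | nil =>
        exfalso
        have h6 : ∀ y ∈ Pr (lt B l), hom (lt B) (mk u) * y = 1 := by
          intro y hy
          have := hsub y hy
          rw [sub_nil, Pr_nil] at this
          exact this
        have h7 := h6 1 (one_mem_Pr _)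
        rw [mul_one] at h7
        have h8 : lt B l ≠ [] := by
          intro h9
          have h10 : B.getD l.1 [] ≠ [] := h0 _ (getD_mem hl)
          unfold lt at h9
          split_ifs at h9
          · exact h10 h9
          · apply h10
            rw [← invRev_invRev (L₁ := B.getD l.1 []), h9, invRev_empty]
        obtain ⟨m, w, h9⟩ := List.exists_cons_of_ne_nil h8
        have h10 : (mk [m] : FreeGroup ℕ) ∈ Pr (lt B l) := by
          rw [h9]
          exact mem_Pr.2 ⟨[m], w, rfl, rfl⟩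
        have h11 := h6 _ h10
        rw [h7, one_mul] at h11
        exact mk_ne_one m h11
      | cons m q =>
        refine ⟨[], m, q, rfl, ?_⟩
        have e : (mk ([] : List (ℕ × Bool)) : FreeGroup ℕ) = 1 := rfl
        rw [e, _root_.map_one, one_smul, h5]
        exact one_mem_Pr _
    · exact h5
  obtain ⟨u', m, v', rfl, h5⟩ := hcov
  have hm : m.1 < B.length := hq m (by simp)
  obtain ⟨y, hy, h6⟩ := h5
  obtain ⟨s, hs, rfl⟩ := mem_Pr_iff_pre.1 hy
  have h6' : hom (lt B) (mk u') * mk s = hom (lt B) (mk u) * mk t := h6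
  have hph : Valid B (invRev u ++ u') :=
    valid_append.2 ⟨valid_invRev (valid_append.1 hp).1, (valid_append.1 hq).1⟩
  have h7 : (mk (t ++ invRev s) : FreeGroup ℕ) = mk (sub (lt B) (invRev u ++ u')) := by
    rw [mk_app, ← inv_mk, ← hom_mk (lt_compat B), mk_app, ← inv_mk, _root_.map_mul,
      _root_.map_inv]
    rw [eq_inv_mul_iff_mul_eq, ← mul_assoc, ← h6', mul_inv_cancel_right]
  have h8 := Rd_red ht reduce.red (Rd_sub h1 hph)
  rw [← reduce.sound h7] at h8
  obtain ⟨h9, h10⟩ := runD_of_Rd h8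
  have h11 := ht2 m.1 (List.mem_range.2 hm) m.2 (mem_two _) s hs h9
  have e1 : (mk (invRev u ++ u') : FreeGroup ℕ) = (mk u)⁻¹ * mk u' := by
    rw [mk_app, inv_mk]
  rcases h11 with h11 | h11
  · apply hside (mk u') (mem_Pr.2 ⟨u', _, rfl, rfl⟩)
    rw [← e1, ← h10]
    unfold Side
    rw [toWord_mk]
    exact h11
  · apply hside (mk (u' ++ [m])) (mem_Pr.2 ⟨u' ++ [m], v', by simp, rfl⟩)
    rw [mk_app u' [m], ← mul_assoc, ← e1, ← h10, ← mk_app]
    unfold Side
    rw [toWord_mk]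
    exact h11

/-- soundness of the certificate -/
theorem free_of_cert {B : List (List (ℕ × Bool))} {tab : Tab} (h0 : ∀ b ∈ B, b ≠ [])
    (ht : TabOK tab) (h1 : C1 B tab) (h2 : C2 B tab) : Free B := by
  intro p q hp hq h
  have e1 : Pr (sub (lt B) p) = Pr (sub (lt B) q) := congrArg Prod.fst h
  have e2 : (mk (sub (lt B) p) : FreeGroup ℕ) = mk (sub (lt B) q) := congrArg Prod.snd h
  refine Prod.ext ?_ (mk_eq_of_cert ht h1 hp hq e2)
  exact Set.Subset.antisymm (Pr_sub_of_cert h0 ht h1 h2 hp hq e1.le)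
    (Pr_sub_of_cert h0 ht h1 h2 hq hp e1.ge)

end Pool.Agent.H169R3.FI
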