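import Pool.Agent.H169R3.FI.IrrC

set_option autoImplicit false

/-! Computability of the checks. -/

namespace Pool.Agent.H169R3.FI

open FreeGroup

section General

variable {α β γ : Type*} [Primcodable α] [Primcodable β] [Primcodable γ]

lemma pp_ball {f : α → List β} {R : α → β → Prop} (hf : Primrec f)
    (hR : PrimrecPred fun x : α × β => R x.1 x.2) : PrimrecPred fun a => ∀ b ∈ f a, R a b := by
  have h1 : PrimrecRel fun (b : β) (a : α) => R a b :=
    hR.comp (Primrec.pair Primrec.snd Primrec.fst)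
  exact (PrimrecRel.forall_mem_list h1).comp hf Primrec.id

lemma pp_bex {f : α → List β} {R : α → β → Prop} (hf : Primrec f)
    (hR : PrimrecPred fun x : α × β => R x.1 x.2) : PrimrecPred fun a => ∃ b ∈ f a, R a b := by
  have h1 : PrimrecRel fun (b : β) (a : α) => R a b :=
    hR.comp (Primrec.pair Primrec.snd Primrec.fst)
  exact (PrimrecRel.exists_mem_list h1).comp hf Primrec.id

lemma pp_eq {f g : α → β} (hf : Primrec f) (hg : Primrec g) : PrimrecPred fun a => f a = g a :=
  Primrec.eq.comp hf hg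

lemma re_exists {R : α → β → Prop} (hR : PrimrecPred fun x : α × β => R x.1 x.2) :
    REPred fun a => ∃ b, R a b := by
  classical
  have h1 : Primrec₂ fun (a : α) (n : ℕ) =>
      ((Encodable.decode (α := β) n).map fun b => decide (R a b)).getD false := by
    have h2 : Primrec₂ fun (a : α) (n : ℕ) =>
        ((Encodable.decode (α := β) n).map fun b => decide (R a b)) := by
      apply Primrec.option_map (Primrec.decode.comp Primrec.snd)
      have h3 : Primrec fun x : α × β => decide (R x.1 x.2) := hR.decide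
      exact h3.comp (Primrec.pair (Primrec.fst.comp Primrec.fst) Primrec.snd)
    exact Primrec.option_getD.comp h2 (Primrec.const false)
  have h4 : Partrec fun a : α => Nat.rfind fun n => Part.some
      (((Encodable.decode (α := β) n).map fun b => decide (R a b)).getD false) :=
    Partrec.rfind h1.to_comp.partrec
  refine (h4.dom_re).of_eq ?_
  intro a
  refine Iff.trans Nat.rfind_dom ?_
  constructor
  · rintro ⟨n, hn, _⟩
    rw [Part.mem_some_iff] at hn
    cases hd : (Encodable.decode (α := β) n) with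
    | none => rw [hd] at hn; simp at hn
    | some b =>
      rw [hd] at hn
      exact ⟨b, by simpa using hn.symm⟩
  · rintro ⟨b, hb⟩
    refine ⟨Encodable.encode b, ?_, fun _ => trivial⟩
    rw [Part.mem_some_iff, Encodable.encodek]
    simpa using hb

end General

abbrev Lt := ℕ × Bool
abbrev Wd := List (ℕ × Bool)

lemma reduce_eq_foldr (w : Wd) : reduce w = w.foldr (fun x r =>
    List.casesOn (motive := fun _ => Wd) r [x] fun hd tl =>
      if x.1 = hd.1 ∧ x.2 = !hd.2 then tl else x :: hd :: tl) [] := by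
  induction w with
  | nil => rfl
  | cons x w ih =>
    rw [reduce.cons, List.foldr_cons, ← ih]

lemma reduce_pr : Primrec (reduce : Wd → Wd) := by
  have h : Primrec fun w : Wd => w.foldr (fun x r =>
    List.casesOn (motive := fun _ => Wd) r [x] fun hd tl =>
      if x.1 = hd.1 ∧ x.2 = !hd.2 then tl else x :: hd :: tl) [] := by
    apply Primrec.list_foldr (h := fun (_ : Wd) (y : Lt × Wd) =>
      List.casesOn (motive := fun _ => Wd) y.2 [y.1] fun hd tl =>
      if y.1.1 = hd.1 ∧ y.1.2 = !hd.2 then tl else y.1 :: hd :: tl) Primrec.id (Primrec.const [])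
    show Primrec fun z : Wd × (Lt × Wd) => List.casesOn (motive := fun _ => Wd) z.2.2 [z.2.1]
      fun hd tl => if z.2.1.1 = hd.1 ∧ z.2.1.2 = !hd.2 then tl else z.2.1 :: hd :: tl
    have hx : Primrec fun z : Wd × (Lt × Wd) => z.2.1 := Primrec.fst.comp Primrec.snd
    have hr : Primrec fun z : Wd × (Lt × Wd) => z.2.2 := Primrec.snd.comp Primrec.snd
    apply Primrec.list_casesOn (h := fun (z : Wd × (Lt × Wd)) (y : Lt × Wd) =>
      if z.2.1.1 = y.1.1 ∧ z.2.1.2 = !y.1.2 then y.2 else z.2.1 :: y.1 :: y.2) hr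
      (Primrec.list_cons.comp hx (Primrec.const []))
    show Primrec fun u : (Wd × (Lt × Wd)) × (Lt × Wd) =>
      if u.1.2.1.1 = u.2.1.1 ∧ u.1.2.1.2 = !u.2.1.2 then u.2.2 else u.1.2.1 :: u.2.1 :: u.2.2
    have hx' : Primrec fun u : (Wd × (Lt × Wd)) × (Lt × Wd) => u.1.2.1 := hx.comp Primrec.fst
    have hy : Primrec fun u : (Wd × (Lt × Wd)) × (Lt × Wd) => u.2.1 :=
      Primrec.fst.comp Primrec.snd
    have ht : Primrec fun u : (Wd × (Lt × Wd)) × (Lt × Wd) => u.2.2 :=
      Primrec.snd.comp Primrec.snd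
    apply Primrec.ite
    · exact (pp_eq (Primrec.fst.comp hx') (Primrec.fst.comp hy)).and
        (pp_eq (Primrec.snd.comp hx') (Primrec.not.comp (Primrec.snd.comp hy)))
    · exact ht
    · exact Primrec.list_cons.comp hx' (Primrec.list_cons.comp hy ht)
  exact h.of_eq fun w => (reduce_eq_foldr w).symm

lemma invRev_pr : Primrec (invRev : Wd → Wd) := by
  unfold invRev
  apply Primrec.list_reverse.comp
  apply Primrec.list_map Primrec.id
  exact Primrec.pair (Primrec.fst.comp Primrec.snd)
    (Primrec.not.comp (Primrec.snd.comp Primrec.snd))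

lemma lt_pr : Primrec₂ lt := by
  have h : Primrec fun x : List Wd × Lt => x.1.getD x.2.1 [] :=
    (Primrec.list_getD []).comp Primrec.fst (Primrec.fst.comp Primrec.snd)
  show Primrec fun x : List Wd × Lt => if x.2.2 = true then x.1.getD x.2.1 [] else
    invRev (x.1.getD x.2.1 [])
  exact Primrec.ite (pp_eq (Primrec.snd.comp Primrec.snd) (Primrec.const true)) h
    (invRev_pr.comp h)

lemma sub_pr : Primrec₂ fun (B : List Wd) (p : Wd) => sub (lt B) p := by
  show Primrec fun x : List Wd × Wd => x.2.flatMap fun l => lt x.1 l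
  apply Primrec.list_flatMap Primrec.snd
  exact lt_pr.comp (Primrec.fst.comp Primrec.fst) Primrec.snd

lemma pre_pr : Primrec pre := by
  unfold pre
  apply Primrec.list_map
  · exact Primrec.list_range.comp (Primrec.succ.comp Primrec.list_length)
  · exact Primrec.list_take.comp Primrec.snd Primrec.fst

lemma rpre_pr : Primrec rpre := by
  unfold rpre
  exact Primrec.list_map pre_pr (reduce_pr.comp Primrec.snd)

lemma mle_pr : PrimrecRel mle := by
  unfold mle
  apply pp_ball (rpre_pr.comp Primrec.fst)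
  apply pp_bex (rpre_pr.comp (Primrec.snd.comp Primrec.fst))
  exact pp_eq (Primrec.snd.comp Primrec.fst) Primrec.snd

lemma meq_pr : PrimrecRel meq := by
  unfold meq
  refine (pp_eq (reduce_pr.comp Primrec.fst) (reduce_pr.comp Primrec.snd)).and ?_
  exact PrimrecPred.and mle_pr (mle_pr.comp Primrec.snd Primrec.fst)

lemma look_pr : Primrec₂ look := by
  unfold look
  exact Primrec.listLookup.comp Primrec.snd Primrec.fst

lemma runD_pr : Primrec₂ runD := by
  unfold runD
  apply Primrec.option_getD.comp _ (Primrec.const _)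
  apply Primrec.list_foldl (h := fun (x : Tab × Wd) (y : Option (Wd × Wd) × Lt) =>
    step x.1 y.1 y.2) Primrec.snd (Primrec.const _)
  show Primrec fun z : (Tab × Wd) × (Option (Wd × Wd) × Lt) => step z.1.1 z.2.1 z.2.2
  unfold step
  apply Primrec.option_bind (Primrec.fst.comp Primrec.snd)
  show Primrec fun u : ((Tab × Wd) × (Option (Wd × Wd) × Lt)) × (Wd × Wd) =>
    (look u.1.1.1 (u.2.1, u.1.2.2)).map fun y => (y.1, u.2.2 ++ y.2)
  apply Primrec.option_map
  · exact look_pr.comp (Primrec.fst.comp (Primrec.fst.comp Primrec.fst))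
      (Primrec.pair (Primrec.fst.comp Primrec.snd)
        (Primrec.snd.comp (Primrec.snd.comp Primrec.fst)))
  · exact Primrec.pair (Primrec.fst.comp Primrec.snd)
      (Primrec.list_append.comp (Primrec.snd.comp (Primrec.snd.comp Primrec.fst))
        (Primrec.snd.comp Primrec.snd))

lemma tabOK_pr : PrimrecPred TabOK := by
  unfold TabOK
  apply pp_ball Primrec.id
  show PrimrecPred fun x : Tab × ((Wd × Lt) × (Wd × Wd)) => ∃ e' ∈ x.1,
    look x.1 (x.2.2.1, (x.2.1.2.1, !x.2.1.2.2)) = some e'.2 ∧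
    e'.2.1 = x.2.1.1 ∧ reduce (x.2.2.2 ++ e'.2.2) = []
  apply pp_bex Primrec.fst
  have ht : Primrec fun z : (Tab × ((Wd × Lt) × (Wd × Wd))) × ((Wd × Lt) × (Wd × Wd)) =>
      z.1.1 := Primrec.fst.comp Primrec.fst
  have he : Primrec fun z : (Tab × ((Wd × Lt) × (Wd × Wd))) × ((Wd × Lt) × (Wd × Wd)) =>
      z.1.2 := Primrec.snd.comp Primrec.fst
  have he' : Primrec fun z : (Tab × ((Wd × Lt) × (Wd × Wd))) × ((Wd × Lt) × (Wd × Wd)) =>
      z.2 := Primrec.snd
  have hl : Primrec fun z : (Tab × ((Wd × Lt) × (Wd × Wd))) × ((Wd × Lt) × (Wd × Wd)) =>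
      z.1.2.1.2 := Primrec.snd.comp (Primrec.fst.comp he)
  refine (pp_eq (look_pr.comp ht (Primrec.pair (Primrec.fst.comp (Primrec.snd.comp he))
    (Primrec.pair (Primrec.fst.comp hl) (Primrec.not.comp (Primrec.snd.comp hl)))))
    (Primrec.option_some.comp (Primrec.snd.comp he'))).and ((pp_eq
      (Primrec.fst.comp (Primrec.snd.comp he')) (Primrec.fst.comp (Primrec.fst.comp he))).and
      (pp_eq (reduce_pr.comp (Primrec.list_append.comp (Primrec.snd.comp (Primrec.snd.comp he))
        (Primrec.snd.comp (Primrec.snd.comp he')))) (Primrec.const [])))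

lemma range_pr {α : Type*} [Primcodable α] {f : α → List Wd} (hf : Primrec f) :
    Primrec fun a => List.range (f a).length :=
  Primrec.list_range.comp (Primrec.list_length.comp hf)

lemma C1_pr : PrimrecRel C1 := by
  unfold C1
  apply pp_ball (range_pr Primrec.fst)
  apply pp_ball (Primrec.const _)
  have hl : Primrec fun z : ((List Wd × Tab) × ℕ) × Bool => ((z.1.2, z.2) : Lt) :=
    Primrec.pair (Primrec.snd.comp Primrec.fst) Primrec.snd
  have hr : Primrec fun z : ((List Wd × Tab) × ℕ) × Bool =>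
      runD z.1.1.2 (lt z.1.1.1 (z.1.2, z.2)) :=
    runD_pr.comp (Primrec.snd.comp (Primrec.fst.comp Primrec.fst))
      (lt_pr.comp (Primrec.fst.comp (Primrec.fst.comp Primrec.fst)) hl)
  exact (pp_eq (Primrec.fst.comp hr) (Primrec.const [])).and
    (pp_eq (reduce_pr.comp (Primrec.snd.comp hr)) (Primrec.list_cons.comp hl (Primrec.const [])))

/-- the innermost condition of `C2` -/
def C2in (tab : Tab) (t s : Wd) (l m : Lt) : Prop :=
  (runD tab (reduce (t ++ invRev s))).1 = [] →
        (reduce (runD tab (reduce (t ++ invRev s))).2).head? = some l ∨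
        (reduce ((runD tab (reduce (t ++ invRev s))).2 ++ [m])).head? = some l

lemma C2in_pr : PrimrecPred fun x : (Tab × (Wd × Wd)) × (Lt × Lt) =>
    C2in x.1.1 x.1.2.1 x.1.2.2 x.2.1 x.2.2 := by
  have hr : Primrec fun x : (Tab × (Wd × Wd)) × (Lt × Lt) =>
      runD x.1.1 (reduce (x.1.2.1 ++ invRev x.1.2.2)) :=
    runD_pr.comp (Primrec.fst.comp Primrec.fst) (reduce_pr.comp (Primrec.list_append.comp
      (Primrec.fst.comp (Primrec.snd.comp Primrec.fst))
      (invRev_pr.comp (Primrec.snd.comp (Primrec.snd.comp Primrec.fst)))))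
  have hl : Primrec fun x : (Tab × (Wd × Wd)) × (Lt × Lt) => x.2.1 :=
    Primrec.fst.comp Primrec.snd
  have hm : Primrec fun x : (Tab × (Wd × Wd)) × (Lt × Lt) => x.2.2 :=
    Primrec.snd.comp Primrec.snd
  refine PrimrecPred.of_eq (p := fun x : (Tab × (Wd × Wd)) × (Lt × Lt) =>
    ¬ ((runD x.1.1 (reduce (x.1.2.1 ++ invRev x.1.2.2))).1 = []) ∨
    ((reduce (runD x.1.1 (reduce (x.1.2.1 ++ invRev x.1.2.2))).2).head? = some x.2.1 ∨
        (reduce ((runD x.1.1 (reduce (x.1.2.1 ++ invRev x.1.2.2))).2 ++ [x.2.2])).head? =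
          some x.2.1)) ?_ ?_
  · refine (pp_eq (Primrec.fst.comp hr) (Primrec.const [])).not.or ((pp_eq ?_ ?_).or
      (pp_eq ?_ ?_))
    · exact Primrec.list_head?.comp (reduce_pr.comp (Primrec.snd.comp hr))
    · exact Primrec.option_some.comp hl
    · exact Primrec.list_head?.comp (reduce_pr.comp (Primrec.list_append.comp
        (Primrec.snd.comp hr) (Primrec.list_cons.comp hm (Primrec.const []))))
    · exact Primrec.option_some.comp hl
  · intro x
    unfold C2in
    exact imp_iff_not_or.symm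

lemma C2_pr : PrimrecRel C2 := by
  show PrimrecPred fun x : List Wd × Tab => ∀ i ∈ List.range x.1.length, ∀ b ∈ [true, false],
    ∃ t ∈ pre (lt x.1 (i, b)),
    ∀ j ∈ List.range x.1.length, ∀ c ∈ [true, false], ∀ s ∈ pre (lt x.1 (j, c)),
      C2in x.2 t s (i, b) (j, c)
  apply pp_ball (range_pr Primrec.fst)
  apply pp_ball (Primrec.const _)
  apply pp_bex (f := fun y : ((List Wd × Tab) × ℕ) × Bool => pre (lt y.1.1.1 (y.1.2, y.2)))
  · exact pre_pr.comp (lt_pr.comp (Primrec.fst.comp (Primrec.fst.comp Primrec.fst))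
      (Primrec.pair (Primrec.snd.comp Primrec.fst) Primrec.snd))
  apply pp_ball (f := fun y : (((List Wd × Tab) × ℕ) × Bool) × Wd =>
    List.range y.1.1.1.1.length)
  · exact range_pr (Primrec.fst.comp (Primrec.fst.comp (Primrec.fst.comp Primrec.fst)))
  apply pp_ball (Primrec.const _)
  apply pp_ball (f := fun y : (((((List Wd × Tab) × ℕ) × Bool) × Wd) × ℕ) × Bool =>
    pre (lt y.1.1.1.1.1.1 (y.1.2, y.2)))
  · exact pre_pr.comp (lt_pr.comp (Primrec.fst.comp (Primrec.fst.comp (Primrec.fst.comp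
      (Primrec.fst.comp (Primrec.fst.comp Primrec.fst)))))
      (Primrec.pair (Primrec.snd.comp Primrec.fst) Primrec.snd))
  have h1 : Primrec fun y : ((((((List Wd × Tab) × ℕ) × Bool) × Wd) × ℕ) × Bool) × Wd =>
      (((y.1.1.1.1.1.1.2, (y.1.1.1.2, y.2)),
        ((y.1.1.1.1.1.2, y.1.1.1.1.2), (y.1.1.2, y.1.2))) :
        (Tab × (Wd × Wd)) × (Lt × Lt)) := by
    refine Primrec.pair (Primrec.pair ?_ (Primrec.pair ?_ ?_))
      (Primrec.pair (Primrec.pair ?_ ?_) (Primrec.pair ?_ ?_))
    · exact Primrec.snd.comp (Primrec.fst.comp (Primrec.fst.comp (Primrec.fst.comp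
        (Primrec.fst.comp (Primrec.fst.comp Primrec.fst)))))
    · exact Primrec.snd.comp (Primrec.fst.comp (Primrec.fst.comp Primrec.fst))
    · exact Primrec.snd
    · exact Primrec.snd.comp (Primrec.fst.comp (Primrec.fst.comp (Primrec.fst.comp
        (Primrec.fst.comp Primrec.fst))))
    · exact Primrec.snd.comp (Primrec.fst.comp (Primrec.fst.comp (Primrec.fst.comp Primrec.fst)))
    · exact Primrec.snd.comp (Primrec.fst.comp Primrec.fst)
    · exact Primrec.snd.comp Primrec.fst
  exact C2in_pr.comp h1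

lemma genC_pr : PrimrecPred fun x : List Wd × (List Wd × List Wd) => GenC x.1 x.2.1 x.2.2 := by
  unfold GenC
  apply pp_ball Primrec.fst
  apply pp_bex (Primrec.snd.comp (Primrec.snd.comp Primrec.fst))
  refine PrimrecPred.and ?_ ?_
  · apply pp_ball Primrec.snd
    exact Primrec.nat_lt.comp (Primrec.fst.comp Primrec.snd) (Primrec.list_length.comp
      (Primrec.fst.comp (Primrec.snd.comp (Primrec.fst.comp (Primrec.fst.comp Primrec.fst)))))
  · exact meq_pr.comp (sub_pr.comp
      (Primrec.fst.comp (Primrec.snd.comp (Primrec.fst.comp Primrec.fst))) Primrec.snd)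
      (Primrec.snd.comp Primrec.fst)

/-- innermost condition of `IrrI` -/
def IrrIn (B R : List Wd) (r : Wd) (T : Wd) (j : ℕ) (b : Bool) : Prop :=
  (∃ r' ∈ R, meq r' (r ++ lt B (j, b))) ∨ ¬ mle (r ++ lt B (j, b)) T

lemma irrIn_pr : PrimrecPred fun x : ((List Wd × List Wd) × (Wd × Wd)) × (ℕ × Bool) =>
    IrrIn x.1.1.1 x.1.1.2 x.1.2.1 x.1.2.2 x.2.1 x.2.2 := by
  have hw : Primrec fun x : ((List Wd × List Wd) × (Wd × Wd)) × (ℕ × Bool) =>
      x.1.2.1 ++ lt x.1.1.1 (x.2.1, x.2.2) :=
    Primrec.list_append.comp (Primrec.fst.comp (Primrec.snd.comp Primrec.fst))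
      (lt_pr.comp (Primrec.fst.comp (Primrec.fst.comp Primrec.fst))
        (Primrec.pair (Primrec.fst.comp Primrec.snd) (Primrec.snd.comp Primrec.snd)))
  unfold IrrIn
  refine PrimrecPred.or ?_ ?_
  · apply pp_bex (Primrec.snd.comp (Primrec.fst.comp Primrec.fst))
    exact meq_pr.comp Primrec.snd (hw.comp Primrec.fst)
  · exact (mle_pr.comp hw (Primrec.snd.comp (Primrec.snd.comp Primrec.fst))).not

lemma irrI_pr : PrimrecPred fun x : (List Wd × ℕ) × List Wd => IrrI x.1.1 x.1.2 x.2 := by
  show PrimrecPred fun x : (List Wd × ℕ) × List Wd => (∃ r ∈ x.2, r = []) ∧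
    (∀ r ∈ x.2, ¬ meq r (x.1.1.getD x.1.2 [])) ∧
    ∀ r ∈ x.2, ∀ j ∈ List.range x.1.1.length, j = x.1.2 ∨ ∀ b ∈ [true, false],
      IrrIn x.1.1 x.2 r (x.1.1.getD x.1.2 []) j b
  have hT : Primrec fun x : (List Wd × ℕ) × List Wd => x.1.1.getD x.1.2 [] :=
    (Primrec.list_getD []).comp (Primrec.fst.comp Primrec.fst) (Primrec.snd.comp Primrec.fst)
  refine PrimrecPred.and ?_ (PrimrecPred.and ?_ ?_)
  · exact pp_bex Primrec.snd (pp_eq Primrec.snd (Primrec.const []))
  · apply pp_ball Primrec.snd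
    exact (meq_pr.comp Primrec.snd (hT.comp Primrec.fst)).not
  · apply pp_ball Primrec.snd
    apply pp_ball (f := fun y : ((List Wd × ℕ) × List Wd) × Wd => List.range y.1.1.1.length)
      (range_pr (Primrec.fst.comp (Primrec.fst.comp Primrec.fst)))
    refine PrimrecPred.or ?_ ?_
    · exact pp_eq Primrec.snd (Primrec.snd.comp (Primrec.fst.comp
        (Primrec.fst.comp Primrec.fst)))
    · apply pp_ball (Primrec.const _)
      have h1 : Primrec fun y : ((((List Wd × ℕ) × List Wd) × Wd) × ℕ) × Bool =>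
          ((((y.1.1.1.1.1, y.1.1.1.2), (y.1.1.2, y.1.1.1.1.1.getD y.1.1.1.1.2 [])),
            (y.1.2, y.2)) : ((List Wd × List Wd) × (Wd × Wd)) × (ℕ × Bool)) := by
        refine Primrec.pair (Primrec.pair (Primrec.pair ?_ ?_) (Primrec.pair ?_ ?_))
          (Primrec.pair ?_ ?_)
        · exact Primrec.fst.comp (Primrec.fst.comp (Primrec.fst.comp
            (Primrec.fst.comp Primrec.fst)))
        · exact Primrec.snd.comp (Primrec.fst.comp (Primrec.fst.comp Primrec.fst))
        · exact Primrec.snd.comp (Primrec.fst.comp Primrec.fst)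
        · exact hT.comp (Primrec.fst.comp (Primrec.fst.comp Primrec.fst))
        · exact Primrec.snd.comp Primrec.fst
        · exact Primrec.snd
      exact irrIn_pr.comp h1

lemma irrC_pr : PrimrecRel IrrC := by
  unfold IrrC
  apply pp_ball (range_pr Primrec.fst)
  apply pp_bex (Primrec.snd.comp Primrec.fst)
  exact irrI_pr.comp (Primrec.pair (Primrec.pair (Primrec.fst.comp (Primrec.fst.comp Primrec.fst))
    (Primrec.snd.comp Primrec.fst)) Primrec.snd)

lemma minC_pr : PrimrecPred fun x : List Wd × ((List Wd × List Wd) × List (List Wd)) =>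
    MinC x.1 x.2.1.1 x.2.1.2 x.2.2 := by
  unfold MinC
  have hB : Primrec fun x : List Wd × ((List Wd × List Wd) × List (List Wd)) => x.2.1.1 :=
    Primrec.fst.comp (Primrec.fst.comp Primrec.snd)
  refine PrimrecPred.and ?_ (PrimrecPred.and ?_ ?_)
  · apply pp_ball hB
    apply pp_bex (Primrec.fst.comp Primrec.fst)
    exact pp_eq Primrec.snd (Primrec.snd.comp Primrec.fst)
  · exact genC_pr.comp (Primrec.pair Primrec.fst (Primrec.fst.comp Primrec.snd))
  · exact irrC_pr.comp hB (Primrec.snd.comp Primrec.snd)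

lemma ne_pr : PrimrecPred fun gens : List Wd => ∀ w ∈ gens, w ≠ [] :=
  pp_ball Primrec.id (pp_eq Primrec.snd (Primrec.const [])).not

lemma chkP_pr : PrimrecPred fun x : List Wd × ((List Wd × List Wd) × (List (List Wd) × Tab)) =>
    ChkP x.1 x.2 := by
  unfold ChkP
  have hB : Primrec fun x : List Wd × ((List Wd × List Wd) × (List (List Wd) × Tab)) =>
      x.2.1.1 := Primrec.fst.comp (Primrec.fst.comp Primrec.snd)
  have ht : Primrec fun x : List Wd × ((List Wd × List Wd) × (List (List Wd) × Tab)) =>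
      x.2.2.2 := Primrec.snd.comp (Primrec.snd.comp Primrec.snd)
  refine (ne_pr.comp Primrec.fst).and (PrimrecPred.and ?_ (PrimrecPred.and ?_
    (PrimrecPred.and ?_ ?_)))
  · exact minC_pr.comp (Primrec.pair Primrec.fst (Primrec.pair (Primrec.fst.comp Primrec.snd)
      (Primrec.fst.comp (Primrec.snd.comp Primrec.snd))))
  · exact tabOK_pr.comp ht
  · exact C1_pr.comp hB ht
  · exact C2_pr.comp hB ht

lemma chkN_pr : PrimrecPred fun x : List Wd × ((List Wd × List Wd) ×
    (List (List Wd) × (Wd × Wd))) => ChkN x.1 x.2 := by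
  unfold ChkN
  have hB : Primrec fun x : List Wd × ((List Wd × List Wd) × (List (List Wd) × (Wd × Wd))) =>
      x.2.1.1 := Primrec.fst.comp (Primrec.fst.comp Primrec.snd)
  have hp : Primrec fun x : List Wd × ((List Wd × List Wd) × (List (List Wd) × (Wd × Wd))) =>
      x.2.2.2.1 := Primrec.fst.comp (Primrec.snd.comp (Primrec.snd.comp Primrec.snd))
  have hq : Primrec fun x : List Wd × ((List Wd × List Wd) × (List (List Wd) × (Wd × Wd))) =>
      x.2.2.2.2 := Primrec.snd.comp (Primrec.snd.comp (Primrec.snd.comp Primrec.snd))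
  refine (ne_pr.comp Primrec.fst).not.or (PrimrecPred.and ?_ (PrimrecPred.and ?_
    (PrimrecPred.and ?_ (PrimrecPred.and ?_ ?_))))
  · exact minC_pr.comp (Primrec.pair Primrec.fst (Primrec.pair (Primrec.fst.comp Primrec.snd)
      (Primrec.fst.comp (Primrec.snd.comp Primrec.snd))))
  · exact pp_ball hp (Primrec.nat_lt.comp (Primrec.fst.comp Primrec.snd)
      (Primrec.list_length.comp (hB.comp Primrec.fst)))
  · exact pp_ball hq (Primrec.nat_lt.comp (Primrec.fst.comp Primrec.snd)
      (Primrec.list_length.comp (hB.comp Primrec.fst)))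
  · exact meq_pr.comp (sub_pr.comp hB hp) (sub_pr.comp hB hq)
  · exact (meq_pr.comp hp hq).not

theorem pred_computable : ComputablePred Pred := by
  rw [ComputablePred.computable_iff_re_compl_re']
  refine ⟨(re_exists chkP_pr).of_eq fun g => (pred_iff g).symm,
    (re_exists chkN_pr).of_eq fun g => (not_pred_iff g).symm⟩

end Pool.Agent.H169R3.FI
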