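import Pool.Agent.H169R3.FI.Gen

set_option autoImplicit false

/-! Isomorphism with a free inverse semigroup and irredundant generating lists. -/

namespace Pool.Agent.H169R3.FI

open Pointwise FreeGroup

/-- the free inverse semigroup on `Z` -/
def FIs (Z : Type) : Set (Set (FreeGroup Z) × FreeGroup Z) := {p | ∃ w, w ≠ [] ∧ p = mu w}

/-- `⟨gens⟩` is isomorphic to a free inverse semigroup -/
def IsoTo (gens : List (List (ℕ × Bool))) : Prop :=
  ∃ (Z : Type) (φ : Set (FreeGroup Z) × FreeGroup Z → Set (FreeGroup ℕ) × FreeGroup ℕ),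
    Set.InjOn φ (FIs Z) ∧ φ '' (FIs Z) = Gen gens ∧
      ∀ x ∈ FIs Z, ∀ y ∈ FIs Z, φ (imul x y) = imul (φ x) (φ y)

lemma gen_eq {gens B : List (List (ℕ × Bool))} (h : MinGen gens B) : Gen gens = Gen B :=
  Set.Subset.antisymm (gen_mono h.gen) (gen_mono fun w hw => gen_base (h.sub w hw))

theorem isoTo_of_free {gens B : List (List (ℕ × Bool))} (h : MinGen gens B) (hB : Free B) :
    IsoTo gens := by
  classical
  let n := B.length
  let f : Fin n × Bool → List (ℕ × Bool) := fun l => lt B (l.1.val, l.2)
  have hf : Compat f := fun l => lt_compat B (l.1.val, l.2)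
  let ι : List (Fin n × Bool) → List (ℕ × Bool) := fun w => w.map fun l => (l.1.val, l.2)
  let g : ℕ × Bool → List (Fin n × Bool) := fun l => if h : l.1 < n then [(⟨l.1, h⟩, l.2)] else []
  have hg : Compat g := by
    rintro ⟨a, b⟩
    show (if h : a < n then [(⟨a, h⟩, !b)] else []) =
      invRev (if h : a < n then [((⟨a, h⟩ : Fin n), b)] else [])
    split_ifs
    · rfl
    · rfl
  have h1 : ∀ w, sub (lt B) (ι w) = sub f w := by
    intro w
    show (w.map _).flatMap _ = w.flatMap _
    rw [List.flatMap_map]
  have h2 : ∀ w, Valid B (ι w) := by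
    intro w l hl
    obtain ⟨m, _, rfl⟩ := List.mem_map.1 hl
    exact m.1.2
  have h3 : ∀ w, sub g (ι w) = w := by
    intro w
    induction w with
    | nil => rfl
    | cons l w ih =>
      show sub g ((l.1.val, l.2) :: ι w) = _
      rw [sub_cons, ih]
      show (if h : (l.1.val < n) then [((⟨l.1.val, h⟩ : Fin n), l.2)] else []) ++ w = l :: w
      rw [dif_pos l.1.2]
      rfl
  have h4 : ∀ p, Valid B p → ι (sub g p) = p := by
    intro p hp
    induction p with
    | nil => rfl
    | cons l p ih =>
      rw [sub_cons]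
      have hl : l.1 < n := hp l (by simp)
      show ((if h : (l.1 < n) then [((⟨l.1, h⟩ : Fin n), l.2)] else []) ++ sub g p).map _ = l :: p
      rw [dif_pos hl, List.map_append]
      have := ih (fun m hm => hp m (by simp [hm]))
      show [(l.1, l.2)] ++ ι (sub g p) = _
      rw [this]
      rfl
  let φ : Set (FreeGroup (Fin n)) × FreeGroup (Fin n) → Set (FreeGroup ℕ) × FreeGroup ℕ :=
    fun x => if h : ∃ w, w ≠ [] ∧ x = mu w then mu (sub f h.choose) else (∅, 1)
  have hφ : ∀ w, w ≠ [] → φ (mu w) = mu (sub f w) := by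
    intro w hw
    have hex : ∃ w', w' ≠ [] ∧ mu w = mu w' := ⟨w, hw, rfl⟩
    show (if h : ∃ w', w' ≠ [] ∧ mu w = mu w' then mu (sub f h.choose) else (∅, 1)) = _
    rw [dif_pos hex]
    exact (mu_sub hf hex.choose_spec.2).symm
  refine ⟨Fin n, φ, ?_, ?_, ?_⟩
  · rintro x ⟨w, hw, rfl⟩ y ⟨w', hw', rfl⟩ hxy
    rw [hφ w hw, hφ w' hw', ← h1, ← h1] at hxy
    have h5 := hB _ _ (h2 w) (h2 w') hxy
    have h6 := mu_sub hg h5
    rwa [h3, h3] at h6
  · rw [gen_eq h]
    ext q
    rw [mem_gen_iff]
    constructor
    · rintro ⟨x, ⟨w, hw, rfl⟩, rfl⟩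
      refine ⟨ι w, ?_, h2 w, ?_⟩
      · intro h5
        exact hw (List.map_eq_nil_iff.1 h5)
      · rw [hφ w hw, h1]
    · rintro ⟨p, hp, hv, rfl⟩
      have h5 : sub g p ≠ [] := by
        intro h6
        have := h4 p hv
        rw [h6] at this
        exact hp this.symm
      refine ⟨mu (sub g p), ⟨sub g p, h5, rfl⟩, ?_⟩
      rw [hφ _ h5, ← h1, h4 p hv]
  · rintro x ⟨w, hw, rfl⟩ y ⟨w', hw', rfl⟩
    rw [← mu_append, hφ _ (by simp [hw]), sub_append, mu_append, hφ w hw, hφ w' hw']

lemma mu_pair {Z : Type} (z : Z × Bool) : mu [z] = (({1, mk [z]} : Set (FreeGroup Z)), mk [z]) := by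
  refine Prod.ext ?_ rfl
  ext x
  show x ∈ Pr [z] ↔ _
  rw [mem_Pr]
  constructor
  · rintro ⟨u, v, h, rfl⟩
    rcases List.append_eq_singleton_iff.1 h.symm with ⟨rfl, rfl⟩ | ⟨rfl, rfl⟩
    · left; rfl
    · right; rfl
  · rintro (rfl | rfl)
    · exact ⟨[], [z], rfl, rfl⟩
    · exact ⟨[z], [], rfl, rfl⟩

lemma mk_flip {Z : Type} (z : Z × Bool) : (mk [(z.1, !z.2)] : FreeGroup Z) = (mk [z])⁻¹ := by
  rw [inv_mk]; rfl

lemma imul_iinv_imul {Z : Type} (x : Set (FreeGroup Z) × FreeGroup Z) :
    imul (imul x (iinv x)) x = x := by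
  unfold imul iinv
  simp

lemma iinv_imul_iinv {Z : Type} (x : Set (FreeGroup Z) × FreeGroup Z) :
    imul (imul (iinv x) x) (iinv x) = iinv x := by
  unfold imul iinv
  simp

theorem free_of_isoTo {gens B : List (List (ℕ × Bool))} (h0 : ∀ w ∈ gens, w ≠ [])
    (h : MinGen gens B) (hI : IsoTo gens) : Free B := by
  classical
  obtain ⟨Z, φ, hinj, himg, hmul⟩ := hI
  rw [gen_eq h] at himg
  have hmu : ∀ w : List (Z × Bool), w ≠ [] → mu w ∈ FIs Z := fun w hw => ⟨w, hw, rfl⟩
  have hgen : ∀ x ∈ FIs Z, φ x ∈ Gen B := by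
    intro x hx
    rw [← himg]
    exact ⟨x, hx, rfl⟩
  -- inverses
  have hinv : ∀ w : List (Z × Bool), w ≠ [] → φ (mu (invRev w)) = iinv (φ (mu w)) := by
    intro w hw
    have hw' : invRev w ≠ [] := by
      intro h3
      apply hw
      rw [← invRev_invRev (L₁ := w), h3, invRev_empty]
    apply iinv_unique
    · rw [← hmul _ (hmu w hw) _ (hmu _ hw'), ← mu_append, ← hmul _ (hmu _ (by simp [hw])) _
        (hmu w hw), ← mu_append]
      congr 1
      rw [mu_append, mu_append, mu_invRev, imul_iinv_imul]
    · rw [← hmul _ (hmu _ hw') _ (hmu w hw), ← mu_append, ← hmul _ (hmu _ (by simp [hw'])) _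
        (hmu _ hw'), ← mu_append]
      congr 1
      rw [mu_append, mu_append, mu_invRev, iinv_imul_iinv]
  -- products
  have hprod : ∀ (f : ℕ × Bool → List (Z × Bool)) (p : List (ℕ × Bool)), p ≠ [] →
      (∀ l ∈ p, f l ≠ [] ∧ φ (mu (f l)) = mu (lt B l)) →
      sub f p ≠ [] ∧ φ (mu (sub f p)) = mu (sub (lt B) p) := by
    intro f p hp hl
    induction p with
    | nil => exact absurd rfl hp
    | cons l p ih =>
      cases p with
      | nil =>
        rw [sub_singleton, sub_singleton]
        exact hl l (by simp)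
      | cons m p =>
        have h1 := ih (by simp) (fun a ha => hl a (by simp [ha]))
        have h2 := hl l (by simp)
        rw [sub_cons, sub_cons (lt B)]
        refine ⟨by simp [h2.1], ?_⟩
        rw [mu_append, hmul _ (hmu _ h2.1) _ (hmu _ h1.1), h1.2, h2.2, mu_append]
  -- preimages of the generators
  have hpre : ∀ l : ℕ × Bool, ∃ w : List (Z × Bool), l.1 < B.length →
      w ≠ [] ∧ φ (mu w) = mu (lt B l) := by
    intro l
    by_cases hl : l.1 < B.length
    · have h1 : mu (lt B l) ∈ Gen B := by
        rw [mem_gen_iff]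
        refine ⟨[l], by simp, ?_, by rw [sub_singleton]⟩
        intro m hm
        rw [List.mem_singleton] at hm
        rw [hm]; exact hl
      rw [← himg] at h1
      obtain ⟨x, ⟨w, hw, rfl⟩, h2⟩ := h1
      exact ⟨w, fun _ => ⟨hw, h2⟩⟩
    · exact ⟨[], fun h => absurd h hl⟩
  choose f hf using hpre
  -- each free generator is a generator up to inversion
  have key : ∀ z : Z, ∃ l : ℕ × Bool, l.1 < B.length ∧ φ (mu [(z, true)]) = mu (lt B l) := by
    intro z
    have h1 := hgen _ (hmu [(z, true)] (by simp))
    rw [mem_gen_iff] at h1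
    obtain ⟨p, hp, hv, h2⟩ := h1
    obtain ⟨h3, h4⟩ := hprod f p hp (fun l hl => hf l (hv l hl))
    rw [← h4] at h2
    have h5 : mu [(z, true)] = mu (sub f p) := hinj (hmu _ (by simp)) (hmu _ h3) h2
    rw [mu_pair] at h5
    have hP : Pr (sub f p) = {1, mk [(z, true)]} := (congrArg Prod.fst h5).symm
    have hM : mk (sub f p) = mk [(z, true)] := (congrArg Prod.snd h5).symm
    -- a factor with non-trivial group image
    have h6 : ∃ u l v, p = u ++ l :: v ∧ mk (f l) ≠ 1 := by
      by_contra hcon
      push Not at hcon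
      have : ∀ q : List (ℕ × Bool), (∀ l ∈ q, (mk (f l) : FreeGroup Z) = 1) →
          (mk (sub f q) : FreeGroup Z) = 1 := by
        intro q
        induction q with
        | nil => intro _; rfl
        | cons l q ih =>
          intro hq
          rw [sub_cons, mk_app, ih (fun m hm => hq m (by simp [hm])), hq l (by simp), mul_one]
      have h7 := this p (by
        intro l hl
        obtain ⟨u, v, h8⟩ := List.append_of_mem hl
        exact hcon u l v h8)
      rw [hM] at h7
      exact mk_ne_one _ h7
    obtain ⟨u, l, v, rfl, h7⟩ := h6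
    have hl : l.1 < B.length := hv l (by simp)
    have h8 : sub f (u ++ l :: v) = sub f u ++ (f l ++ sub f v) := by
      rw [sub_append, sub_cons]
    have h9 : ∀ x ∈ Pr (f l), mk (sub f u) * x ∈ ({1, mk [(z, true)]} : Set (FreeGroup Z)) := by
      intro x hx
      rw [← hP, h8, Pr_append]
      right
      rw [Pr_append, Set.smul_set_union]
      left
      exact Set.smul_mem_smul_set hx
    have h10 := h9 1 (one_mem_Pr _)
    have h11 := h9 _ (mk_mem_Pr _)
    rw [mul_one] at h10
    rcases h10 with h10 | h10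
    · rw [h10, one_mul] at h11
      rcases h11 with h11 | h11
      · exact absurd h11 h7
      · have h12 : mu (f l) = mu [(z, true)] := by
          rw [mu_pair]
          refine Prod.ext ?_ h11
          show Pr (f l) = _
          apply Set.Subset.antisymm
          · intro x hx
            have := h9 x hx
            rwa [h10, one_mul] at this
          · rintro x (rfl | rfl)
            · exact one_mem_Pr _
            · rw [← h11]; exact mk_mem_Pr _
        exact ⟨l, hl, by rw [← h12]; exact (hf l hl).2⟩
    · have h10' : (mk (sub f u) : FreeGroup Z) = mk [(z, true)] := h10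
      rw [h10'] at h11
      have h13 : (mk (f l) : FreeGroup Z) = mk [(z, false)] := by
        have e : (mk [(z, false)] : FreeGroup Z) = (mk [(z, true)])⁻¹ := mk_flip (z, true)
        rcases h11 with h11 | h11
        · rw [e]; exact eq_inv_of_mul_eq_one_right h11
        · exact absurd (mul_eq_left.1 h11) h7
      have h12 : mu (f l) = mu [(z, false)] := by
        rw [mu_pair]
        refine Prod.ext ?_ h13
        show Pr (f l) = _
        apply Set.Subset.antisymm
        · intro x hx
          have h14 := h9 x hx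
          rw [h10'] at h14
          rcases h14 with h14 | h14
          · right
            have e : (mk [(z, false)] : FreeGroup Z) = (mk [(z, true)])⁻¹ := mk_flip (z, true)
            show x = _
            rw [e]; exact eq_inv_of_mul_eq_one_right h14
          · left
            exact mul_eq_left.1 h14
        · rintro x (rfl | rfl)
          · exact one_mem_Pr _
          · rw [← h13]; exact mk_mem_Pr _
      refine ⟨(l.1, !l.2), hl, ?_⟩
      have h15 : invRev [(z, false)] = [(z, true)] := rfl
      rw [← h15, hinv _ (by simp), ← h12, (hf l hl).2, lt_compat, mu_invRev]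
  choose lam hlam using key
  let lh : Z × Bool → ℕ × Bool := fun c => ((lam c.1).1, if c.2 then (lam c.1).2 else !(lam c.1).2)
  let F : Z × Bool → List (ℕ × Bool) := fun c => [lh c]
  have hF : Compat F := by
    rintro ⟨z, b⟩
    cases b <;> simp [F, lh, invRev]
  have hlh : ∀ c : Z × Bool, φ (mu [c]) = mu (lt B (lh c)) := by
    rintro ⟨z, b⟩
    cases b
    · have h1 : [(z, false)] = invRev [(z, true)] := rfl
      rw [h1, hinv _ (by simp), (hlam z).2, ← mu_invRev, ← lt_compat]
      rfl
    · rw [(hlam z).2]; rfl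
  have hword : ∀ w : List (Z × Bool), w ≠ [] → φ (mu w) = mu (sub (lt B) (sub F w)) := by
    intro w hw
    induction w with
    | nil => exact absurd rfl hw
    | cons c w ih =>
      cases w with
      | nil =>
        rw [hlh, sub_singleton]
        show _ = mu (sub (lt B) [lh c])
        rw [sub_singleton]
      | cons d w =>
        have e : c :: d :: w = [c] ++ (d :: w) := rfl
        rw [e, mu_append, hmul _ (hmu _ (by simp)) _ (hmu _ (by simp)), ih (by simp), hlh,
          sub_append F, sub_append, mu_append, sub_singleton]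
        show _ = imul (mu (sub (lt B) [lh c])) _
        rw [sub_singleton]
  have hFval : ∀ w, Valid B (sub F w) := by
    intro w l hl
    obtain ⟨c, _, h2⟩ := List.mem_flatMap.1 hl
    have h3 : l = lh c := List.mem_singleton.1 h2
    rw [h3]
    exact (hlam c.1).1
  -- every index occurs
  have hsurj : ∀ i : ℕ, i < B.length → ∃ z : Z, (lam z).1 = i := by
    intro i hi
    by_contra hcon
    push Not at hcon
    have h1 : mu (B.getD i []) ∈ Gen B := gen_base (getD_mem hi)
    rw [← himg] at h1
    obtain ⟨x, ⟨w, hw, rfl⟩, h2⟩ := h1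
    rw [hword w hw] at h2
    refine h.irr i hi _ (hFval w) ?_ h2
    intro l hl
    obtain ⟨c, _, h3⟩ := List.mem_flatMap.1 hl
    have h4 : l = lh c := List.mem_singleton.1 h3
    rw [h4]
    exact hcon c.1
  have hlift : ∀ p : List (ℕ × Bool), Valid B p → ∃ w : List (Z × Bool), sub F w = p := by
    intro p hp
    induction p with
    | nil => exact ⟨[], rfl⟩
    | cons l p ih =>
      obtain ⟨w, hw⟩ := ih (fun m hm => hp m (by simp [hm]))
      obtain ⟨z, hz⟩ := hsurj l.1 (hp l (by simp))
      refine ⟨(z, l.2 == (lam z).2) :: w, ?_⟩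
      rw [sub_cons, hw]
      show [lh (z, l.2 == (lam z).2)] ++ p = l :: p
      have : lh (z, l.2 == (lam z).2) = l := by
        refine Prod.ext hz ?_
        show (if (l.2 == (lam z).2) = true then (lam z).2 else !(lam z).2) = l.2
        generalize (lam z).2 = b
        generalize l.2 = c
        revert b c
        decide
      rw [this]
      rfl
  intro p q hp hq hpq
  have hne : ∀ r : List (ℕ × Bool), Valid B r → sub (lt B) r = [] → r = [] := by
    intro r hr h1
    cases r with
    | nil => rfl
    | cons l r =>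
      exfalso
      rw [sub_cons, List.append_eq_nil_iff] at h1
      have h2 : B.getD l.1 [] = [] := by
        have h3 := h1.1
        unfold lt at h3
        split_ifs at h3
        · exact h3
        · rw [← invRev_invRev (L₁ := B.getD l.1 []), h3, invRev_empty]
      exact h0 _ (h.sub _ (getD_mem (hr l (by simp)))) h2
  obtain ⟨w, rfl⟩ := hlift p hp
  obtain ⟨w', rfl⟩ := hlift q hq
  by_cases hw : w = []
  · subst hw
    rw [sub_nil, sub_nil] at hpq
    have := hne _ hq (eq_nil_of_mu hpq.symm)
    rw [this]
    rfl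
  · by_cases hw' : w' = []
    · subst hw'
      rw [sub_nil, sub_nil] at hpq
      have := hne _ hp (eq_nil_of_mu hpq)
      rw [this]
      rfl
    · rw [← hword w hw, ← hword w' hw'] at hpq
      exact mu_sub hF (hinj (hmu w hw) (hmu w' hw') hpq)

end Pool.Agent.H169R3.FI
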