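import Pool.Agent.H169R3.FI.Cert
import Pool.Agent.H169R3.FI.Iso

set_option autoImplicit false

/-! Certificates for freeness: existence. -/

namespace Pool.Agent.H169R3.FI

open Pointwise FreeGroup

lemma lookup_filterMap {A C : Type*} [BEq A] [LawfulBEq A] [DecidableEq A] (D : List A)
    (F : A → Option C) (d : A) :
    (D.filterMap fun d => (F d).map fun v => (d, v)).lookup d = if d ∈ D then F d else none := by
  induction D with
  | nil => simp
  | cons x D ih =>
    rw [List.filterMap_cons]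
    cases hx : F x with
    | none =>
      simp only [Option.map_none]
      rw [ih]
      by_cases hd : d ∈ D
      · rw [if_pos hd, if_pos (List.mem_cons_of_mem _ hd)]
      · rw [if_neg hd]
        by_cases hdx : d = x
        · subst hdx
          rw [if_pos (by simp), hx]
        · rw [if_neg (by simp [hdx, hd])]
    | some v =>
      simp only [Option.map_some]
      rw [List.lookup_cons]
      by_cases hdx : d = x
      · subst hdx
        rw [if_pos (by simp), hx]
        simp
      · have : (d == x) = false := by simpa using hdx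
        rw [this]
        show List.lookup d _ = _
        rw [ih]
        by_cases hd : d ∈ D
        · rw [if_pos hd, if_pos (List.mem_cons_of_mem _ hd)]
        · rw [if_neg hd, if_neg (by simp [hdx, hd])]

/-- membership in the subgroup generated by `B` -/
def HB (B : List (List (ℕ × Bool))) (x : FreeGroup ℕ) : Prop :=
  ∃ p, Valid B p ∧ mk (sub (lt B) p) = x

variable {B : List (List (ℕ × Bool))}

lemma HB_one : HB B 1 := ⟨[], by simp [Valid], rfl⟩

lemma HB_mul {x y : FreeGroup ℕ} (hx : HB B x) (hy : HB B y) : HB B (x * y) := by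
  obtain ⟨p, h1, rfl⟩ := hx
  obtain ⟨q, h2, rfl⟩ := hy
  exact ⟨p ++ q, valid_append.2 ⟨h1, h2⟩, by rw [sub_append, mk_app]⟩

lemma HB_inv {x : FreeGroup ℕ} (hx : HB B x) : HB B x⁻¹ := by
  obtain ⟨p, h1, rfl⟩ := hx
  exact ⟨invRev p, valid_invRev h1, by rw [sub_invRev (lt_compat B), inv_mk]⟩

/-- same coset -/
def Co (B : List (List (ℕ × Bool))) (u k : List (ℕ × Bool)) : Prop := HB B (mk u * (mk k)⁻¹)

lemma Co_refl (u : List (ℕ × Bool)) : Co B u u := by
  unfold Co; rw [mul_inv_cancel]; exact HB_one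

lemma Co_symm {u v : List (ℕ × Bool)} (h : Co B u v) : Co B v u := by
  have := HB_inv h
  unfold Co
  rwa [mul_inv_rev, inv_inv] at this

lemma Co_trans {u v w : List (ℕ × Bool)} (h : Co B u v) (h' : Co B v w) : Co B u w := by
  have := HB_mul h h'
  unfold Co
  rwa [mul_assoc, inv_mul_cancel_left] at this

lemma Co_app {u v : List (ℕ × Bool)} (m : List (ℕ × Bool)) (h : Co B u v) :
    Co B (u ++ m) (v ++ m) := by
  unfold Co at h ⊢
  rw [mk_app, mk_app, mul_inv_rev, mul_assoc, mul_inv_cancel_left]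
  exact h

/-- all relevant words -/
def KB (B : List (List (ℕ × Bool))) : List (List (ℕ × Bool)) :=
  [] :: (List.range B.length).flatMap fun i => pre (lt B (i, true)) ++ pre (lt B (i, false))

lemma mem_KB {l : ℕ × Bool} (hl : l.1 < B.length) {u : List (ℕ × Bool)} (hu : u ∈ pre (lt B l)) :
    u ∈ KB B := by
  unfold KB
  apply List.mem_cons_of_mem
  rw [List.mem_flatMap]
  refine ⟨l.1, List.mem_range.2 hl, ?_⟩
  rw [List.mem_append]
  obtain ⟨i, b⟩ := l
  cases b
  · right; exact hu
  · left; exact hu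

open Classical in
/-- representative of a coset -/
noncomputable def rep (B : List (List (ℕ × Bool))) (u : List (ℕ × Bool)) :
    Option (List (ℕ × Bool)) := (KB B).find? fun k => decide (Co B u k)

lemma rep_some {u k : List (ℕ × Bool)} (h : rep B u = some k) : k ∈ KB B ∧ Co B u k := by
  unfold rep at h
  exact ⟨List.mem_of_find?_eq_some h, by simpa using List.find?_some h⟩

lemma rep_exists {u k : List (ℕ × Bool)} (hk : k ∈ KB B) (h : Co B u k) :
    ∃ k', rep B u = some k' := by
  unfold rep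
  rw [← Option.isSome_iff_exists, List.find?_isSome]
  exact ⟨k, hk, by simpa using h⟩

lemma rep_congr {u v : List (ℕ × Bool)} (h : Co B u v) : rep B u = rep B v := by
  unfold rep
  congr 1
  funext k
  rw [decide_eq_decide]
  exact ⟨fun h1 => Co_trans (Co_symm h) h1, fun h1 => Co_trans h h1⟩

lemma rep_self {u k : List (ℕ × Bool)} (h : rep B u = some k) : rep B k = some k := by
  rw [← rep_congr (rep_some h).2, h]

lemma rep_nil {u : List (ℕ × Bool)} (h : HB B (mk u)) : rep B u = some [] := by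
  unfold rep KB
  rw [List.find?_cons_of_pos]
  have e : (mk ([] : List (ℕ × Bool)) : FreeGroup ℕ) = 1 := rfl
  have : Co B u [] := by
    unfold Co
    rw [e, inv_one, mul_one]
    exact h
  simpa using this

open Classical in
/-- output of a transition -/
noncomputable def outp (B : List (List (ℕ × Bool))) (k : List (ℕ × Bool)) (l : ℕ × Bool)
    (k' : List (ℕ × Bool)) : List (ℕ × Bool) :=
  if h : HB B (mk (k ++ [l]) * (mk k')⁻¹) then h.choose else []

lemma outp_spec {k : List (ℕ × Bool)} {l : ℕ × Bool} {k' : List (ℕ × Bool)}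
    (h : Co B (k ++ [l]) k') : Valid B (outp B k l k') ∧
      mk (sub (lt B) (outp B k l k')) = (mk (k ++ [l]) * (mk k')⁻¹ : FreeGroup ℕ) := by
  have h' : HB B (mk (k ++ [l]) * (mk k')⁻¹) := h
  unfold outp
  rw [dif_pos h']
  exact h'.choose_spec

/-- transition function -/
noncomputable def FB (B : List (List (ℕ × Bool))) (d : List (ℕ × Bool) × (ℕ × Bool)) :
    Option (List (ℕ × Bool) × List (ℕ × Bool)) :=
  (rep B (d.1 ++ [d.2])).map fun k' => (k', outp B d.1 d.2 k')

open Classical in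
/-- keys -/
noncomputable def DB (B : List (List (ℕ × Bool))) : List (List (ℕ × Bool) × (ℕ × Bool)) :=
  ((KB B).filter fun k => rep B k = some k) ×ˢ
    ((KB B).flatten ++ (KB B).flatten.map fun l => (l.1, !l.2))

/-- the table -/
noncomputable def tabB (B : List (List (ℕ × Bool))) : Tab :=
  (DB B).filterMap fun d => (FB B d).map fun v => (d, v)

open Classical in
lemma look_tabB (d : List (ℕ × Bool) × (ℕ × Bool)) :
    look (tabB B) d = if d ∈ DB B then FB B d else none := by
  unfold look tabB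
  have := @lookup_filterMap _ _ (instBEqOfDecidableEq : BEq (List (ℕ × Bool) × (ℕ × Bool))) _ _
    (DB B) (FB B) d
  convert this

lemma mem_DB {k : List (ℕ × Bool)} {l : ℕ × Bool} : (k, l) ∈ DB B ↔
    (k ∈ KB B ∧ rep B k = some k) ∧ (l ∈ (KB B).flatten ∨ (l.1, !l.2) ∈ (KB B).flatten) := by
  unfold DB
  rw [List.mem_product, List.mem_filter, List.mem_append, List.mem_map]
  simp only [decide_eq_true_eq]
  apply and_congr_right
  intro _
  apply or_congr_right
  constructor
  · rintro ⟨a, ha, rfl⟩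
    simpa using ha
  · intro h
    exact ⟨_, h, by simp⟩

lemma mem_tabB {e : (List (ℕ × Bool) × (ℕ × Bool)) × (List (ℕ × Bool) × List (ℕ × Bool))}
    (he : e ∈ tabB B) : e.1 ∈ DB B ∧ FB B e.1 = some e.2 := by
  unfold tabB at he
  rw [List.mem_filterMap] at he
  obtain ⟨d, hd, h⟩ := he
  rw [Option.map_eq_some_iff] at h
  obtain ⟨v, hv, rfl⟩ := h
  exact ⟨hd, hv⟩

lemma FB_some {k : List (ℕ × Bool)} {l : ℕ × Bool} {v : List (ℕ × Bool) × List (ℕ × Bool)}
    (h : FB B (k, l) = some v) : rep B (k ++ [l]) = some v.1 ∧ v.2 = outp B k l v.1 := by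
  unfold FB at h
  rw [Option.map_eq_some_iff] at h
  obtain ⟨k', h1, rfl⟩ := h
  exact ⟨h1, rfl⟩

/-- freeness gives injectivity on the group level -/
lemma inj_of_free (hB : Free B) {p q : List (ℕ × Bool)} (hp : Valid B p) (hq : Valid B q)
    (h : (mk (sub (lt B) p) : FreeGroup ℕ) = mk (sub (lt B) q)) :
    (mk p : FreeGroup ℕ) = mk q := by
  have key : ∀ r, Valid B r → (mk (sub (lt B) r) : FreeGroup ℕ) = 1 →
      (mk r : FreeGroup ℕ) = 1 := by
    intro r hr h1
    have h2 : mu (sub (lt B) (r ++ invRev r)) = mu (sub (lt B) (r ++ invRev r ++ r)) := by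
      rw [sub_append _ (r ++ invRev r) r, sub_append, sub_invRev (lt_compat B)]
      generalize sub (lt B) r = w at h1
      have e1 : (mk (w ++ invRev w) : FreeGroup ℕ) = 1 := by
        rw [mk_app, ← inv_mk, mul_inv_cancel]
      refine Prod.ext ?_ ?_
      · show Pr (w ++ invRev w) = Pr (w ++ invRev w ++ w)
        rw [Pr_append (w ++ invRev w) w, e1, one_smul, Pr_append w, Pr_invRev, smul_inv_smul,
          Set.union_self, Set.union_self]
      · show mk (w ++ invRev w) = mk (w ++ invRev w ++ w)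
        rw [mk_app (w ++ invRev w) w, e1, h1, one_mul]
    have h3 := hB _ _ (valid_append.2 ⟨hr, valid_invRev hr⟩)
      (valid_append.2 ⟨valid_append.2 ⟨hr, valid_invRev hr⟩, hr⟩) h2
    have h4 : (mk (r ++ invRev r) : FreeGroup ℕ) = mk (r ++ invRev r ++ r) :=
      congrArg Prod.snd h3
    rw [mk_app (r ++ invRev r) r] at h4
    exact (mul_eq_left.1 h4.symm)
  have h1 := key (p ++ invRev q) (valid_append.2 ⟨hp, valid_invRev hq⟩) (by
    rw [sub_append, sub_invRev (lt_compat B), mk_app, ← inv_mk, h, mul_inv_cancel])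
  rw [mk_app, ← inv_mk] at h1
  exact mul_inv_eq_one.1 h1

lemma tabOK_B (hB : Free B) : TabOK (tabB B) := by
  classical
  rintro ⟨⟨k, l⟩, v⟩ he
  obtain ⟨h1, h2⟩ := mem_tabB he
  obtain ⟨h3, h4⟩ := FB_some h2
  have h1' := mem_DB.1 h1
  have h5 : Co B (v.1 ++ [(l.1, !l.2)]) k := by
    have h6 := Co_app [(l.1, !l.2)] (Co_symm (rep_some h3).2)
    refine Co_trans h6 ?_
    unfold Co
    have : (mk (k ++ [l] ++ [(l.1, !l.2)]) : FreeGroup ℕ) = mk k := by
      rw [mk_app, mk_app, mk_flip, mul_inv_cancel_right]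
    rw [this]
    exact Co_refl k
  have h6 : rep B (v.1 ++ [(l.1, !l.2)]) = some k := by
    rw [rep_congr h5]; exact h1'.1.2
  have h7 : (v.1, (l.1, !l.2)) ∈ DB B := by
    rw [mem_DB]
    refine ⟨⟨(rep_some h3).1, rep_self h3⟩, ?_⟩
    rcases h1'.2 with h8 | h8
    · right; simpa using h8
    · left; exact h8
  have h8 : FB B (v.1, (l.1, !l.2)) = some (k, outp B v.1 (l.1, !l.2) k) := by
    unfold FB
    rw [Option.map_eq_some_iff]
    exact ⟨k, h6, rfl⟩
  refine ⟨((v.1, (l.1, !l.2)), (k, outp B v.1 (l.1, !l.2) k)), ?_, ?_, rfl, ?_⟩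
  · unfold tabB
    rw [List.mem_filterMap]
    exact ⟨_, h7, by rw [h8]; rfl⟩
  · rw [look_tabB, if_pos h7, h8]
  · show reduce (v.2 ++ outp B v.1 (l.1, !l.2) k) = []
    obtain ⟨h9, h10⟩ := outp_spec (rep_some h3).2
    obtain ⟨h11, h12⟩ := outp_spec h5
    have h13 : (mk (v.2 ++ outp B v.1 (l.1, !l.2) k) : FreeGroup ℕ) = mk [] := by
      apply inj_of_free hB
      · exact valid_append.2 ⟨by rw [h4]; exact h9, h11⟩
      · simp [Valid]
      · rw [sub_append, mk_app, h12, h4, h10, mk_app, mk_app, mk_flip]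
        show _ = (1 : FreeGroup ℕ)
        group
    exact reduce.sound h13

/-- the table is semantically correct -/
lemma Rd_tabB (w : List (ℕ × Bool)) : ∀ (q q' : List (ℕ × Bool)) (g : FreeGroup ℕ),
    Rd (tabB B) q w q' g → ∃ p, Valid B p ∧ g = mk p ∧
      mk (sub (lt B) p) = (mk q * mk w * (mk q')⁻¹ : FreeGroup ℕ) := by
  classical
  induction w with
  | nil =>
    rintro q q' g ⟨rfl, rfl⟩
    refine ⟨[], by simp [Valid], rfl, ?_⟩
    have e : (mk ([] : List (ℕ × Bool)) : FreeGroup ℕ) = 1 := rfl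
    rw [sub_nil, e, mul_one, mul_inv_cancel]
  | cons l w ih =>
    rintro q q' g ⟨y, hy, g', h, rfl⟩
    obtain ⟨p, h1, rfl, h2⟩ := ih _ _ _ h
    obtain ⟨_, h3⟩ := mem_tabB (mem_of_look hy)
    obtain ⟨h4, h5⟩ := FB_some h3
    obtain ⟨h6, h7⟩ := outp_spec (rep_some h4).2
    refine ⟨y.2 ++ p, valid_append.2 ⟨by rw [h5]; exact h6, h1⟩, rfl, ?_⟩
    rw [sub_append, mk_app, h2, h5, h7, mk_app]
    have e : (mk (l :: w) : FreeGroup ℕ) = mk [l] * mk w := rfl
    rw [e]
    group

lemma mk_lt (l : ℕ × Bool) : (mk (lt B l) : FreeGroup ℕ) = mk (sub (lt B) [l]) := by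
  rw [sub_singleton]

lemma Rd_prefix {l : ℕ × Bool} (hl : l.1 < B.length) (u : List (ℕ × Bool)) :
    u ∈ pre (lt B l) → ∃ k g, rep B u = some k ∧ Rd (tabB B) [] u k g := by
  classical
  induction u using List.reverseRecOn with
  | nil =>
    intro _
    exact ⟨[], 1, rep_nil HB_one, rfl, rfl⟩
  | append_singleton u m ih =>
    intro hu
    obtain ⟨v, hv⟩ := mem_pre.1 hu
    obtain ⟨k, g, h1, h2⟩ := ih (mem_pre.2 ⟨[m] ++ v, by rw [hv]; simp⟩)
    obtain ⟨k', h3⟩ := rep_exists (mem_KB hl hu) (Co_refl (B := B) (u ++ [m]))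
    refine ⟨k', g * (mk (outp B k m k') * 1), h3, ?_⟩
    rw [Rd_append]
    refine ⟨k, g, _, h2, ⟨(k', outp B k m k'), ?_, 1, ⟨rfl, rfl⟩, rfl⟩, rfl⟩
    have h4 : (k, m) ∈ DB B := by
      rw [mem_DB]
      refine ⟨⟨(rep_some h1).1, rep_self h1⟩, Or.inl ?_⟩
      rw [List.mem_flatten]
      exact ⟨_, mem_KB hl hu, by simp⟩
    rw [look_tabB, if_pos h4]
    unfold FB
    rw [Option.map_eq_some_iff]
    refine ⟨k', ?_, rfl⟩
    show rep B (k ++ [m]) = some k'
    rw [← h3]
    exact rep_congr (Co_app [m] (Co_symm (rep_some h1).2))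

lemma C1_B (hB : Free B) : C1 B (tabB B) := by
  intro i hi b _
  rw [List.mem_range] at hi
  obtain ⟨k, g, h1, h2⟩ := Rd_prefix (B := B) (l := (i, b)) hi (lt B (i, b))
    (mem_pre.2 ⟨[], by simp⟩)
  have hv : Valid B [(i, b)] := by
    intro m hm
    rw [List.mem_singleton] at hm
    rw [hm]; exact hi
  have h3 : HB B (mk (lt B (i, b))) := ⟨[(i, b)], hv, (mk_lt _).symm⟩
  rw [rep_nil h3] at h1
  obtain rfl := (Option.some.inj h1)
  obtain ⟨p, h4, rfl, h5⟩ := Rd_tabB _ _ _ _ h2
  obtain ⟨h6, h7⟩ := runD_of_Rd h2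
  refine ⟨h6, ?_⟩
  have e : (mk ([] : List (ℕ × Bool)) : FreeGroup ℕ) = 1 := rfl
  rw [e, inv_one, mul_one, one_mul, mk_lt] at h5
  have h8 := inj_of_free hB h4 hv h5
  rw [h8] at h7
  have := reduce.sound h7
  rw [this, reduce_singleton]

/-- reduced words starting differently stay on the near side -/
lemma near_of_reduced {l : ℕ × Bool} {r : List (ℕ × Bool)} (hr : IsReduced r)
    (hl : r.head? ≠ some l) : ∀ x ∈ Pr r, ¬ Side l x := by
  intro x hx
  obtain ⟨u, v, rfl, rfl⟩ := mem_Pr.1 hx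
  have hu : IsReduced u := List.IsChain.left_of_append hr
  unfold Side
  rw [toWord_mk, hu.reduce_eq]
  cases u with
  | nil => simp
  | cons a u =>
    simpa using hl

lemma valid_reduce {p : List (ℕ × Bool)} (hp : Valid B p) : Valid B (reduce p) := by
  intro l hl
  exact hp l ((Red.sublist reduce.red).subset hl)

lemma near_step {l m : ℕ × Bool} {p : List (ℕ × Bool)} (hp : Valid B p) (hm : m.1 < B.length)
    (h1 : (reduce p).head? ≠ some l) (h2 : (reduce (p ++ [m])).head? ≠ some l)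
    {x : FreeGroup ℕ} (hx : x ∈ hom (lt B) (mk p) • Pr (lt B m)) :
    ∃ q, Valid B q ∧ (mk q : FreeGroup ℕ) = 1 ∧ (∀ y ∈ Pr q, ¬ Side l y) ∧
      x ∈ Pr (sub (lt B) q) := by
  have hvm : Valid B [m] := by
    intro a ha
    rw [List.mem_singleton] at ha
    rw [ha]; exact hm
  have hr : IsReduced (reduce p) := isReduced_iff_reduce_eq.2 reduce.idem
  have hvr : Valid B (reduce p ++ [m]) := valid_append.2 ⟨valid_reduce hp, hvm⟩
  refine ⟨(reduce p ++ [m]) ++ invRev (reduce p ++ [m]), valid_append.2 ⟨hvr, valid_invRev hvr⟩,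
    ?_, ?_, ?_⟩
  · rw [mk_app, ← inv_mk, mul_inv_cancel]
  · intro y hy
    rw [Pr_append (reduce p ++ [m]), Pr_invRev, smul_inv_smul, Set.union_self, Pr_append] at hy
    rcases hy with hy | hy
    · exact near_of_reduced hr h1 y hy
    · obtain ⟨z, hz, rfl⟩ := hy
      have hz' : z ∈ (mu [m]).1 := hz
      have e : (mk (reduce p) : FreeGroup ℕ) = mk p := reduce.self
      obtain ⟨u, v, huv, rfl⟩ := mem_Pr.1 hz
      rcases List.append_eq_singleton_iff.1 huv.symm with ⟨rfl, rfl⟩ | ⟨rfl, rfl⟩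
      · apply near_of_reduced hr h1
        have e1 : (mk ([] : List (ℕ × Bool)) : FreeGroup ℕ) = 1 := rfl
        show mk (reduce p) * mk [] ∈ _
        rw [e1, mul_one]
        exact mk_mem_Pr _
      · show ¬ Side l (mk (reduce p) * mk [m])
        rw [e, ← mk_app]
        unfold Side
        rw [toWord_mk]
        exact h2
  · rw [sub_append, Pr_append]
    left
    rw [sub_append, Pr_append, sub_singleton]
    right
    have e : (mk (reduce p) : FreeGroup ℕ) = mk p := reduce.self
    rw [← hom_mk (lt_compat B), e]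
    exact hx

lemma C2_B (hB : Free B) : C2 B (tabB B) := by
  intro i hi b _
  rw [List.mem_range] at hi
  by_contra hcon
  push Not at hcon
  have key : ∀ t ∈ pre (lt B (i, b)), ∃ q, Valid B q ∧ (mk q : FreeGroup ℕ) = 1 ∧
      (∀ y ∈ Pr q, ¬ Side (i, b) y) ∧ mk t ∈ Pr (sub (lt B) q) := by
    intro t ht
    obtain ⟨j, hj, c, _, s, hs, h1, h2, h3⟩ := hcon t ht
    rw [List.mem_range] at hj
    have h4 := Rd_of_runD h1
    obtain ⟨p, h5, h6, h7⟩ := Rd_tabB _ _ _ _ h4
    rw [reduce.sound h6] at h2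
    have h3' : (reduce (p ++ [(j, c)])).head? ≠ some (i, b) := by
      have e : (mk ((runD (tabB B) (reduce (t ++ invRev s))).2 ++ [(j, c)]) : FreeGroup ℕ) =
          mk (p ++ [(j, c)]) := by
        rw [mk_app, mk_app, h6]
      rw [reduce.sound e] at h3
      exact h3
    refine near_step (l := (i, b)) (m := (j, c)) h5 hj h2 h3' ?_
    refine ⟨mk s, mem_Pr_iff_pre.2 ⟨s, hs, rfl⟩, ?_⟩
    show hom (lt B) (mk p) * mk s = mk t
    have e : (mk ([] : List (ℕ × Bool)) : FreeGroup ℕ) = 1 := rfl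
    rw [hom_mk (lt_compat B), h7, e, inv_one, mul_one, one_mul, reduce.self, mk_app, ← inv_mk,
      inv_mul_cancel_right]
  have key2 : ∀ ts : List (List (ℕ × Bool)), (∀ t ∈ ts, t ∈ pre (lt B (i, b))) →
      ∃ q, Valid B q ∧ (mk q : FreeGroup ℕ) = 1 ∧
      (∀ y ∈ Pr q, ¬ Side (i, b) y) ∧ ∀ t ∈ ts, mk t ∈ Pr (sub (lt B) q) := by
    intro ts
    induction ts with
    | nil =>
      intro _
      refine ⟨[], by simp [Valid], rfl, ?_, by simp⟩
      intro y hy
      rw [Pr_nil] at hy
      rw [Set.mem_singleton_iff.1 hy]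
      exact not_side_one _
    | cons t ts ih =>
      intro hts
      obtain ⟨q1, h1, h2, h3, h4⟩ := key t (hts t (by simp))
      obtain ⟨q2, h5, h6, h7, h8⟩ := ih (fun s hs => hts s (by simp [hs]))
      refine ⟨q1 ++ q2, valid_append.2 ⟨h1, h5⟩, by rw [mk_app, h2, h6, one_mul], ?_, ?_⟩
      · intro y hy
        rw [Pr_append, h2, one_smul] at hy
        rcases hy with hy | hy
        · exact h3 y hy
        · exact h7 y hy
      · intro s hs
        rw [sub_append, Pr_append, ← hom_mk (lt_compat B), h2, _root_.map_one, one_smul]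
        rcases List.mem_cons.1 hs with rfl | hs
        · left; exact h4
        · right; exact h8 s hs
  obtain ⟨q, h1, h2, h3, h4⟩ := key2 (pre (lt B (i, b))) (fun t ht => ht)
  have hcov : Pr (lt B (i, b)) ⊆ Pr (sub (lt B) q) := by
    intro x hx
    obtain ⟨t, ht, rfl⟩ := mem_Pr_iff_pre.1 hx
    exact h4 t ht
  have hv : Valid B [(i, b)] := by
    intro m hm
    rw [List.mem_singleton] at hm
    rw [hm]; exact hi
  have hv2 : Valid B ([(i, b)] ++ invRev [(i, b)]) := valid_append.2 ⟨hv, valid_invRev hv⟩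
  have h5 : mu (sub (lt B) (q ++ ([(i, b)] ++ invRev [(i, b)]))) = mu (sub (lt B) q) := by
    rw [sub_append, sub_append, sub_invRev (lt_compat B), sub_singleton]
    have e1 : (mk (sub (lt B) q) : FreeGroup ℕ) = 1 := by
      rw [← hom_mk (lt_compat B), h2, _root_.map_one]
    refine Prod.ext ?_ ?_
    · show Pr _ = Pr _
      rw [Pr_append, Pr_append, Pr_invRev, smul_inv_smul, Set.union_self, e1, one_smul]
      exact Set.union_eq_left.2 hcov
    · show mk _ = mk _
      rw [mk_app, mk_app, ← inv_mk, mul_inv_cancel, mul_one]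
  have h6 := hB _ _ (valid_append.2 ⟨h1, hv2⟩) h1 h5
  have h7 : Pr (q ++ ([(i, b)] ++ invRev [(i, b)])) = Pr q := congrArg Prod.fst h6
  apply h3 (mk [(i, b)]) _ (side_mk _)
  rw [← h7, mem_Pr]
  refine ⟨q ++ [(i, b)], invRev [(i, b)], by simp, ?_⟩
  rw [mk_app, h2, one_mul]

/-- completeness of the certificate -/
theorem cert_of_free (hB : Free B) : ∃ tab, TabOK tab ∧ C1 B tab ∧ C2 B tab :=
  ⟨tabB B, tabOK_B hB, C1_B hB, C2_B hB⟩

end Pool.Agent.H169R3.FI
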