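import Pool.Agent.H169R3.FI.Sub

set_option autoImplicit false

/-! Generated inverse subsemigroups. -/

namespace Pool.Agent.H169R3.FI

open Pointwise FreeGroup

/-- the word of a letter over the generating list `B` -/
def lt (B : List (List (ℕ × Bool))) (l : ℕ × Bool) : List (ℕ × Bool) :=
  if l.2 then B.getD l.1 [] else invRev (B.getD l.1 [])

lemma lt_compat (B : List (List (ℕ × Bool))) : Compat (lt B) := by
  rintro ⟨a, b⟩
  unfold lt
  cases b <;> simp [invRev_invRev]

/-- words over the indices of `B` -/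
def Valid (B : List (List (ℕ × Bool))) (p : List (ℕ × Bool)) : Prop := ∀ l ∈ p, l.1 < B.length

lemma valid_append {B : List (List (ℕ × Bool))} {p q : List (ℕ × Bool)} :
    Valid B (p ++ q) ↔ Valid B p ∧ Valid B q := by
  unfold Valid
  simp only [List.mem_append]
  constructor
  · intro h; exact ⟨fun l hl => h l (Or.inl hl), fun l hl => h l (Or.inr hl)⟩
  · rintro ⟨h1, h2⟩ l (hl | hl)
    · exact h1 l hl
    · exact h2 l hl

lemma mem_invRev {α : Type*} {p : List (α × Bool)} {l : α × Bool} (h : l ∈ invRev p) :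
    (l.1, !l.2) ∈ p := by
  unfold invRev at h
  rw [List.mem_reverse, List.mem_map] at h
  obtain ⟨m, hm, rfl⟩ := h
  simpa using hm

lemma valid_invRev {B : List (List (ℕ × Bool))} {p : List (ℕ × Bool)} (h : Valid B p) :
    Valid B (invRev p) := by
  intro l hl
  exact h (l.1, !l.2) (mem_invRev hl)

/-- the inverse subsemigroup generated by `B` -/
def Gen (B : List (List (ℕ × Bool))) : Set (Set (FreeGroup ℕ) × FreeGroup ℕ) :=
  {q | ∀ T : Set (Set (FreeGroup ℕ) × FreeGroup ℕ), (∀ w ∈ B, mu w ∈ T) →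
    (∀ x ∈ T, ∀ y ∈ T, imul x y ∈ T) → (∀ x ∈ T, iinv x ∈ T) → q ∈ T}

lemma gen_base {B : List (List (ℕ × Bool))} {w : List (ℕ × Bool)} (h : w ∈ B) : mu w ∈ Gen B :=
  fun _ h1 _ _ => h1 w h

lemma gen_mul {B : List (List (ℕ × Bool))} {x y : Set (FreeGroup ℕ) × FreeGroup ℕ}
    (hx : x ∈ Gen B) (hy : y ∈ Gen B) : imul x y ∈ Gen B :=
  fun T h1 h2 h3 => h2 x (hx T h1 h2 h3) y (hy T h1 h2 h3)

lemma gen_inv {B : List (List (ℕ × Bool))} {x : Set (FreeGroup ℕ) × FreeGroup ℕ}
    (hx : x ∈ Gen B) : iinv x ∈ Gen B :=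
  fun T h1 h2 h3 => h3 x (hx T h1 h2 h3)

lemma gen_mono {B C : List (List (ℕ × Bool))} (h : ∀ w ∈ B, mu w ∈ Gen C) : Gen B ⊆ Gen C := by
  intro q hq
  exact hq (Gen C) h (fun x hx y hy => gen_mul hx hy) (fun x hx => gen_inv hx)

lemma sub_mem {α : Type*} (f : α × Bool → List (ℕ × Bool))
    (T : Set (Set (FreeGroup ℕ) × FreeGroup ℕ))
    (hT : ∀ x ∈ T, ∀ y ∈ T, imul x y ∈ T) (p : List (α × Bool)) (hp : p ≠ [])
    (h : ∀ l ∈ p, mu (f l) ∈ T) : mu (sub f p) ∈ T := by
  induction p with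
  | nil => exact absurd rfl hp
  | cons l p ih =>
    cases p with
    | nil => rw [sub_singleton]; exact h l (by simp)
    | cons m p =>
      rw [sub_cons, mu_append]
      exact hT _ (h l (by simp)) _ (ih (by simp) fun m hm => h m (by simp [hm]))

lemma mu_lt_mem {B : List (List (ℕ × Bool))} {l : ℕ × Bool}
    {T : Set (Set (FreeGroup ℕ) × FreeGroup ℕ)} (h1 : mu (B.getD l.1 []) ∈ T)
    (hT : ∀ x ∈ T, iinv x ∈ T) : mu (lt B l) ∈ T := by
  unfold lt
  split_ifs
  · exact h1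
  · rw [mu_invRev]
    exact hT _ h1

lemma getD_mem {B : List (List (ℕ × Bool))} {i : ℕ} (hi : i < B.length) : B.getD i [] ∈ B := by
  rw [List.getD_eq_getElem _ _ hi]
  exact List.getElem_mem hi

lemma mem_gen_iff {B : List (List (ℕ × Bool))} {q : Set (FreeGroup ℕ) × FreeGroup ℕ} :
    q ∈ Gen B ↔ ∃ p, p ≠ [] ∧ Valid B p ∧ q = mu (sub (lt B) p) := by
  constructor
  · intro h
    apply h {q | ∃ p, p ≠ [] ∧ Valid B p ∧ q = mu (sub (lt B) p)}
    · intro w hw
      obtain ⟨i, hi, rfl⟩ := List.mem_iff_getElem.1 hw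
      refine ⟨[(i, true)], by simp, ?_, ?_⟩
      · intro l hl
        rw [List.mem_singleton] at hl
        rw [hl]; exact hi
      · rw [sub_singleton]
        unfold lt
        rw [if_pos rfl]
        show mu B[i] = mu (B.getD i [])
        rw [List.getD_eq_getElem _ _ hi]
    · rintro x ⟨p, h1, h2, rfl⟩ y ⟨p', h3, h4, rfl⟩
      refine ⟨p ++ p', by simp [h1], valid_append.2 ⟨h2, h4⟩, ?_⟩
      rw [sub_append, mu_append]
    · rintro x ⟨p, h1, h2, rfl⟩
      refine ⟨invRev p, ?_, valid_invRev h2, ?_⟩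
      · intro h3
        apply h1
        rw [← invRev_invRev (L₁ := p), h3, invRev_empty]
      · rw [sub_invRev (lt_compat B), mu_invRev]
  · rintro ⟨p, h1, h2, rfl⟩
    refine sub_mem _ _ (fun x hx y hy => gen_mul hx hy) p h1 ?_
    intro l hl
    exact mu_lt_mem (gen_base (getD_mem (h2 l hl))) (fun x hx => gen_inv hx)

/-- `B` freely generates -/
def Free (B : List (List (ℕ × Bool))) : Prop :=
  ∀ p q, Valid B p → Valid B q → mu (sub (lt B) p) = mu (sub (lt B) q) → mu p = mu q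

/-- no member of `B` is generated by the others -/
def Irr (B : List (List (ℕ × Bool))) : Prop :=
  ∀ i < B.length, ∀ p, Valid B p → (∀ l ∈ p, l.1 ≠ i) → mu (sub (lt B) p) ≠ mu (B.getD i [])

/-- `B` is an irredundant generating list taken from `gens` -/
structure MinGen (gens B : List (List (ℕ × Bool))) : Prop where
  sub : ∀ b ∈ B, b ∈ gens
  gen : ∀ w ∈ gens, mu w ∈ Gen B
  irr : Irr B

lemma exists_minGen (gens : List (List (ℕ × Bool))) (h0 : ∀ w ∈ gens, w ≠ []) :
    ∃ B, MinGen gens B := by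
  classical
  let P : ℕ → Prop := fun n => ∃ B : List (List (ℕ × Bool)), B.length = n ∧
    (∀ b ∈ B, b ∈ gens) ∧ ∀ w ∈ gens, mu w ∈ Gen B
  have hP : ∃ n, P n := ⟨gens.length, gens, rfl, fun b hb => hb, fun w hw => gen_base hw⟩
  obtain ⟨B, h1, h2, h3⟩ := Nat.find_spec hP
  refine ⟨B, h2, h3, ?_⟩
  intro i hi p hp hpi heq
  have hne : p ≠ [] := by
    rintro rfl
    rw [sub_nil] at heq
    exact h0 _ (h2 _ (getD_mem hi)) (eq_nil_of_mu heq.symm)
  have key : ∀ j, j < B.length → j ≠ i → mu (B.getD j []) ∈ Gen (B.eraseIdx i) := by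
    intro j hj hji
    apply gen_base
    rw [List.mem_eraseIdx_iff_getElem]
    exact ⟨j, hj, hji, (List.getD_eq_getElem _ _ hj).symm⟩
  have h4 : mu (B.getD i []) ∈ Gen (B.eraseIdx i) := by
    rw [← heq]
    refine sub_mem _ _ (fun x hx y hy => gen_mul hx hy) p hne ?_
    intro l hl
    exact mu_lt_mem (key l.1 (hp l hl) (hpi l hl)) (fun x hx => gen_inv hx)
  have h5 : Gen B ⊆ Gen (B.eraseIdx i) := by
    apply gen_mono
    intro w hw
    obtain ⟨j, hj, rfl⟩ := List.mem_iff_getElem.1 hw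
    by_cases hji : j = i
    · subst hji
      rwa [List.getD_eq_getElem _ _ hj] at h4
    · have := key j hj hji
      rwa [List.getD_eq_getElem _ _ hj] at this
  have h6 : P (B.length - 1) := by
    refine ⟨B.eraseIdx i, ?_, fun b hb => h2 b (List.mem_of_mem_eraseIdx hb),
      fun w hw => h5 (h3 w hw)⟩
    rw [List.length_eraseIdx_of_lt hi]
  have h7 := Nat.find_min' hP h6
  omega

end Pool.Agent.H169R3.FI
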