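import Pool.Agent.H169R3.FI.Complete

set_option autoImplicit false

/-! Word-level checks, certificates for generation and irredundancy. -/

namespace Pool.Agent.H169R3.FI

open Pointwise FreeGroup

/-- reduced prefixes -/
def rpre (w : List (ℕ × Bool)) : List (List (ℕ × Bool)) := (pre w).map reduce

/-- inclusion of Munn trees -/
def mle (u v : List (ℕ × Bool)) : Prop := ∀ a ∈ rpre u, ∃ b ∈ rpre v, a = b

/-- equality of Munn trees -/
def meq (u v : List (ℕ × Bool)) : Prop := reduce u = reduce v ∧ mle u v ∧ mle v u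

lemma mle_iff {u v : List (ℕ × Bool)} : mle u v ↔ Pr u ⊆ Pr v := by
  unfold mle rpre
  constructor
  · intro h x hx
    obtain ⟨t, ht, rfl⟩ := mem_Pr_iff_pre.1 hx
    obtain ⟨b, hb, h2⟩ := h _ (List.mem_map_of_mem ht)
    obtain ⟨s, hs, rfl⟩ := List.mem_map.1 hb
    exact mem_Pr_iff_pre.2 ⟨s, hs, reduce.exact h2⟩
  · intro h a ha
    obtain ⟨t, ht, rfl⟩ := List.mem_map.1 ha
    obtain ⟨s, hs, h2⟩ := mem_Pr_iff_pre.1 (h (mem_Pr_iff_pre.2 ⟨t, ht, rfl⟩))
    exact ⟨_, List.mem_map_of_mem hs, reduce.sound h2⟩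

lemma meq_iff {u v : List (ℕ × Bool)} : meq u v ↔ mu u = mu v := by
  unfold meq
  rw [mle_iff, mle_iff]
  constructor
  · rintro ⟨h1, h2, h3⟩
    exact Prod.ext (Set.Subset.antisymm h2 h3) (reduce.exact h1)
  · intro h
    have h1 : Pr u = Pr v := congrArg Prod.fst h
    have h2 : (mk u : FreeGroup ℕ) = mk v := congrArg Prod.snd h
    exact ⟨reduce.sound h2, h1.le, h1.ge⟩

/-- certificate for generation -/
def GenC (gens B ps : List (List (ℕ × Bool))) : Prop :=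
  ∀ w ∈ gens, ∃ p ∈ ps, (∀ l ∈ p, l.1 < B.length) ∧ meq (sub (lt B) p) w

lemma gen_of_cert {gens B ps : List (List (ℕ × Bool))} (h0 : ∀ w ∈ gens, w ≠ [])
    (h : GenC gens B ps) : ∀ w ∈ gens, mu w ∈ Gen B := by
  intro w hw
  obtain ⟨p, _, h1, h2⟩ := h w hw
  rw [meq_iff] at h2
  rw [mem_gen_iff]
  refine ⟨p, ?_, h1, h2.symm⟩
  rintro rfl
  rw [sub_nil] at h2
  exact h0 w hw (eq_nil_of_mu h2.symm)

lemma cert_of_gen {gens B : List (List (ℕ × Bool))} (h : ∀ w ∈ gens, mu w ∈ Gen B) :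
    ∃ ps, GenC gens B ps := by
  have h1 : ∀ w : List (ℕ × Bool), ∃ p, w ∈ gens → Valid B p ∧ mu (sub (lt B) p) = mu w := by
    intro w
    by_cases hw : w ∈ gens
    · obtain ⟨p, _, h2, h3⟩ := mem_gen_iff.1 (h w hw)
      exact ⟨p, fun _ => ⟨h2, h3.symm⟩⟩
    · exact ⟨[], fun h => absurd h hw⟩
  choose f hf using h1
  refine ⟨gens.map f, ?_⟩
  intro w hw
  exact ⟨f w, List.mem_map_of_mem hw, (hf w hw).1, meq_iff.2 (hf w hw).2⟩

/-- certificate that `B_i` is not generated by the other members of `B` -/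
def IrrI (B : List (List (ℕ × Bool))) (i : ℕ) (R : List (List (ℕ × Bool))) : Prop :=
  (∃ r ∈ R, r = []) ∧ (∀ r ∈ R, ¬ meq r (B.getD i [])) ∧
    ∀ r ∈ R, ∀ j ∈ List.range B.length, j = i ∨ ∀ b ∈ [true, false],
      (∃ r' ∈ R, meq r' (r ++ lt B (j, b))) ∨ ¬ mle (r ++ lt B (j, b)) (B.getD i [])

/-- certificate for irredundancy -/
def IrrC (B : List (List (ℕ × Bool))) (Rs : List (List (List (ℕ × Bool)))) : Prop :=
  ∀ i ∈ List.range B.length, ∃ R ∈ Rs, IrrI B i R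

variable {B : List (List (ℕ × Bool))}

lemma irr_of_cert {Rs : List (List (List (ℕ × Bool)))} (h : IrrC B Rs) : Irr B := by
  intro i hi p hp hpi heq
  obtain ⟨R, _, ⟨r0, h0, rfl⟩, h1, h2⟩ := h i (List.mem_range.2 hi)
  have key : ∀ p, Valid B p → (∀ l ∈ p, l.1 ≠ i) → Pr (sub (lt B) p) ⊆ Pr (B.getD i []) →
      ∃ r ∈ R, mu r = mu (sub (lt B) p) := by
    intro p
    induction p using List.reverseRecOn with
    | nil => intro _ _ _; exact ⟨[], h0, rfl⟩
    | append_singleton p m ih =>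
      intro hp hpi hsub
      have h3 : Pr (sub (lt B) p) ⊆ Pr (sub (lt B) (p ++ [m])) := by
        rw [sub_append, Pr_append]; exact Set.subset_union_left
      obtain ⟨r, hr, h4⟩ := ih (valid_append.1 hp).1 (fun l hl => hpi l (by simp [hl]))
        (h3.trans hsub)
      have hm : m.1 < B.length := hp m (by simp)
      have h5 : mu (r ++ lt B m) = mu (sub (lt B) (p ++ [m])) := by
        rw [mu_append, h4, sub_append, mu_append, sub_singleton]
      rcases h2 r hr m.1 (List.mem_range.2 hm) with h6 | h6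
      · exact absurd h6 (hpi m (by simp))
      · rcases h6 m.2 (mem_two _) with ⟨r', hr', h7⟩ | h7
        · exact ⟨r', hr', by rw [meq_iff.1 h7]; exact h5⟩
        · exfalso
          apply h7
          rw [mle_iff]
          have h8 : Pr (r ++ lt B m) = Pr (sub (lt B) (p ++ [m])) := congrArg Prod.fst h5
          exact h8.le.trans hsub
  obtain ⟨r, hr, h3⟩ := key p hp hpi (congrArg Prod.fst heq).le
  exact h1 r hr (meq_iff.2 (h3.trans heq))

lemma finite_Pr (w : List (ℕ × Bool)) : (Pr w).Finite := by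
  apply Set.Finite.subset (((pre w).map mk).finite_toSet)
  intro x hx
  obtain ⟨t, ht, rfl⟩ := mem_Pr_iff_pre.1 hx
  exact List.mem_map_of_mem ht

lemma certI_of_irr (h : Irr B) {i : ℕ} (hi : i < B.length) : ∃ R, IrrI B i R := by
  classical
  let T := B.getD i []
  let Q : List (ℕ × Bool) → Prop := fun w => ∃ p, Valid B p ∧ (∀ l ∈ p, l.1 ≠ i) ∧
    w = sub (lt B) p ∧ Pr w ⊆ Pr T
  let S : Set (Set (FreeGroup ℕ) × FreeGroup ℕ) := {x | ∃ w, Q w ∧ x = mu w}
  have hS : S.Finite := by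
    apply Set.Finite.subset (((finite_Pr T).finite_subsets).prod (finite_Pr T))
    rintro x ⟨w, ⟨p, _, _, _, h4⟩, rfl⟩
    exact ⟨h4, h4 (mk_mem_Pr w)⟩
  have hch : ∀ x : Set (FreeGroup ℕ) × FreeGroup ℕ, ∃ w, x ∈ S → Q w ∧ x = mu w := by
    intro x
    by_cases hx : x ∈ S
    · obtain ⟨w, hw⟩ := hx
      exact ⟨w, fun _ => hw⟩
    · exact ⟨[], fun h => absurd h hx⟩
  choose f hf using hch
  let R := hS.toFinset.toList.map f
  have hR : ∀ r ∈ R, Q r := by
    intro r hr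
    obtain ⟨x, hx, rfl⟩ := List.mem_map.1 hr
    rw [Finset.mem_toList, Set.Finite.mem_toFinset] at hx
    exact (hf x hx).1
  have hR2 : ∀ w, Q w → ∃ r ∈ R, mu r = mu w := by
    intro w hw
    have hx : mu w ∈ S := ⟨w, hw, rfl⟩
    refine ⟨f (mu w), ?_, (hf _ hx).2.symm⟩
    apply List.mem_map_of_mem
    rw [Finset.mem_toList, Set.Finite.mem_toFinset]
    exact hx
  have hQ0 : Q [] := ⟨[], by simp [Valid], by simp, rfl, by
    rw [Pr_nil]
    rintro x rfl
    exact one_mem_Pr _⟩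
  refine ⟨R, ?_, ?_, ?_⟩
  · obtain ⟨r, hr, h1⟩ := hR2 [] hQ0
    exact ⟨r, hr, eq_nil_of_mu h1⟩
  · intro r hr hm
    obtain ⟨p, h1, h2, rfl, _⟩ := hR r hr
    exact h i hi p h1 h2 (meq_iff.1 hm)
  · intro r hr j hj
    rw [List.mem_range] at hj
    obtain ⟨p, h1, h2, rfl, _⟩ := hR r hr
    by_cases hji : j = i
    · left; exact hji
    · right
      intro b _
      by_cases hm : mle (sub (lt B) p ++ lt B (j, b)) (B.getD i [])
      · left
        have hQ : Q (sub (lt B) p ++ lt B (j, b)) := by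
          refine ⟨p ++ [(j, b)], ?_, ?_, ?_, mle_iff.1 hm⟩
          · refine valid_append.2 ⟨h1, ?_⟩
            intro l hl
            rw [List.mem_singleton] at hl
            rw [hl]; exact hj
          · intro l hl
            rcases List.mem_append.1 hl with hl | hl
            · exact h2 l hl
            · rw [List.mem_singleton] at hl
              rw [hl]; exact hji
          · rw [sub_append, sub_singleton]
        obtain ⟨r', hr', h3⟩ := hR2 _ hQ
        exact ⟨r', hr', meq_iff.2 h3⟩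
      · right; exact hm

lemma cert_of_irr (h : Irr B) : ∃ Rs, IrrC B Rs := by
  have h1 : ∀ i : ℕ, ∃ R, i < B.length → IrrI B i R := by
    intro i
    by_cases hi : i < B.length
    · obtain ⟨R, hR⟩ := certI_of_irr h hi
      exact ⟨R, fun _ => hR⟩
    · exact ⟨[], fun h => absurd h hi⟩
  choose f hf using h1
  refine ⟨(List.range B.length).map f, ?_⟩
  intro i hi
  exact ⟨f i, List.mem_map_of_mem hi, hf i (List.mem_range.1 hi)⟩

/-- certificate for `MinGen` -/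
def MinC (gens B ps : List (List (ℕ × Bool))) (Rs : List (List (List (ℕ × Bool)))) : Prop :=
  (∀ b ∈ B, ∃ w ∈ gens, w = b) ∧ GenC gens B ps ∧ IrrC B Rs

lemma minGen_of_cert {gens ps : List (List (ℕ × Bool))} {Rs : List (List (List (ℕ × Bool)))}
    (h0 : ∀ w ∈ gens, w ≠ []) (h : MinC gens B ps Rs) : MinGen gens B where
  sub b hb := by obtain ⟨w, hw, rfl⟩ := h.1 b hb; exact hw
  gen := gen_of_cert h0 h.2.1
  irr := irr_of_cert h.2.2

lemma cert_of_minGen {gens : List (List (ℕ × Bool))} (h : MinGen gens B) :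
    ∃ ps Rs, MinC gens B ps Rs := by
  obtain ⟨ps, h1⟩ := cert_of_gen h.gen
  obtain ⟨Rs, h2⟩ := cert_of_irr h.irr
  exact ⟨ps, Rs, fun b hb => ⟨b, h.sub b hb, rfl⟩, h1, h2⟩

/-- positive check -/
def ChkP (gens : List (List (ℕ × Bool)))
    (c : (List (List (ℕ × Bool)) × List (List (ℕ × Bool))) ×
      (List (List (List (ℕ × Bool))) × Tab)) : Prop :=
  (∀ w ∈ gens, w ≠ []) ∧ MinC gens c.1.1 c.1.2 c.2.1 ∧ TabOK c.2.2 ∧ C1 c.1.1 c.2.2 ∧
    C2 c.1.1 c.2.2

/-- negative check -/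
def ChkN (gens : List (List (ℕ × Bool)))
    (c : (List (List (ℕ × Bool)) × List (List (ℕ × Bool))) ×
      (List (List (List (ℕ × Bool))) × (List (ℕ × Bool) × List (ℕ × Bool)))) : Prop :=
  ¬ (∀ w ∈ gens, w ≠ []) ∨ (MinC gens c.1.1 c.1.2 c.2.1 ∧
    (∀ l ∈ c.2.2.1, l.1 < c.1.1.length) ∧ (∀ l ∈ c.2.2.2, l.1 < c.1.1.length) ∧
    meq (sub (lt c.1.1) c.2.2.1) (sub (lt c.1.1) c.2.2.2) ∧ ¬ meq c.2.2.1 c.2.2.2)

/-- the predicate to be decided -/
def Pred (gens : List (List (ℕ × Bool))) : Prop := (∀ w ∈ gens, w ≠ []) ∧ IsoTo gens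

theorem pred_iff (gens : List (List (ℕ × Bool))) : Pred gens ↔ ∃ c, ChkP gens c := by
  constructor
  · rintro ⟨h0, h1⟩
    obtain ⟨B, hB⟩ := exists_minGen gens h0
    obtain ⟨ps, Rs, h2⟩ := cert_of_minGen hB
    obtain ⟨tab, h3⟩ := cert_of_free (free_of_isoTo h0 hB h1)
    exact ⟨((B, ps), (Rs, tab)), h0, h2, h3⟩
  · rintro ⟨⟨⟨B, ps⟩, ⟨Rs, tab⟩⟩, h0, h1, h2, h3, h4⟩
    have hB := minGen_of_cert h0 h1
    exact ⟨h0, isoTo_of_free hB (free_of_cert (fun b hb => h0 b (hB.sub b hb)) h2 h3 h4)⟩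

theorem not_pred_iff (gens : List (List (ℕ × Bool))) : ¬ Pred gens ↔ ∃ c, ChkN gens c := by
  constructor
  · intro h
    by_cases h0 : ∀ w ∈ gens, w ≠ []
    · obtain ⟨B, hB⟩ := exists_minGen gens h0
      obtain ⟨ps, Rs, h2⟩ := cert_of_minGen hB
      have h3 : ¬ Free B := fun h4 => h ⟨h0, isoTo_of_free hB h4⟩
      unfold Free at h3
      push Not at h3
      obtain ⟨p, q, h4, h5, h6, h7⟩ := h3
      exact ⟨((B, ps), (Rs, (p, q))), Or.inr ⟨h2, h4, h5, meq_iff.2 h6,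
        fun h8 => h7 (meq_iff.1 h8)⟩⟩
    · exact ⟨(([], []), ([], ([], []))), Or.inl h0⟩
  · rintro ⟨⟨⟨B, ps⟩, ⟨Rs, ⟨p, q⟩⟩⟩, hc⟩ ⟨h0, h1⟩
    rcases hc with h | ⟨h2, h3, h4, h5, h6⟩
    · exact h h0
    · have hB := minGen_of_cert h0 h2
      exact h6 (meq_iff.2 (free_of_isoTo h0 hB h1 p q h3 h4 (meq_iff.1 h5)))

end Pool.Agent.H169R3.FI
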