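import Mathlib

set_option autoImplicit false

/-! Munn trees: basic facts. -/

namespace Pool.Agent.H169R3.FI

open Pointwise FreeGroup

variable {α β : Type*}

/-- the set of vertices visited by the path labelled `w` -/
def Pr (w : List (α × Bool)) : Set (FreeGroup α) :=
  Set.range (fun i : ℕ => FreeGroup.mk (w.take i))

/-- the Munn tree of a word -/
def mu (w : List (α × Bool)) : Set (FreeGroup α) × FreeGroup α := (Pr w, FreeGroup.mk w)

/-- multiplication -/
def imul (x y : Set (FreeGroup α) × FreeGroup α) : Set (FreeGroup α) × FreeGroup α :=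
  (x.1 ∪ x.2 • y.1, x.2 * y.2)

/-- inversion -/
def iinv (x : Set (FreeGroup α) × FreeGroup α) : Set (FreeGroup α) × FreeGroup α :=
  (x.2⁻¹ • x.1, x.2⁻¹)

lemma mem_Pr {w : List (α × Bool)} {x : FreeGroup α} :
    x ∈ Pr w ↔ ∃ u v, w = u ++ v ∧ x = mk u := by
  constructor
  · rintro ⟨i, rfl⟩
    exact ⟨w.take i, w.drop i, (List.take_append_drop i w).symm, rfl⟩
  · rintro ⟨u, v, rfl, rfl⟩
    exact ⟨u.length, by simp⟩

lemma one_mem_Pr (w : List (α × Bool)) : (1 : FreeGroup α) ∈ Pr w :=
  mem_Pr.2 ⟨[], w, rfl, rfl⟩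

lemma mk_mem_Pr (w : List (α × Bool)) : mk w ∈ Pr w :=
  mem_Pr.2 ⟨w, [], by simp, rfl⟩

@[simp] lemma Pr_nil : Pr ([] : List (α × Bool)) = {1} := by
  ext x
  rw [mem_Pr]
  constructor
  · rintro ⟨u, v, h, rfl⟩
    rw [(List.append_eq_nil_iff.1 h.symm).1]
    rfl
  · rintro rfl
    exact ⟨[], [], rfl, rfl⟩

lemma mk_app (u v : List (α × Bool)) : (mk (u ++ v) : FreeGroup α) = mk u * mk v := rfl

lemma Pr_append (u v : List (α × Bool)) : Pr (u ++ v) = Pr u ∪ mk u • Pr v := by
  ext x
  constructor
  · rw [mem_Pr]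
    rintro ⟨a, b, h, rfl⟩
    rcases List.append_eq_append_iff.1 h with ⟨c, rfl, rfl⟩ | ⟨c, rfl, rfl⟩
    · right
      rw [mk_app]
      exact Set.smul_mem_smul_set (mem_Pr.2 ⟨c, b, rfl, rfl⟩)
    · left
      exact mem_Pr.2 ⟨a, c, rfl, rfl⟩
  · rintro (h | h)
    · obtain ⟨a, b, rfl, rfl⟩ := mem_Pr.1 h
      exact mem_Pr.2 ⟨a, b ++ v, by simp, rfl⟩
    · obtain ⟨y, hy, rfl⟩ := h
      obtain ⟨a, b, rfl, rfl⟩ := mem_Pr.1 hy
      exact mem_Pr.2 ⟨u ++ a, b, by simp, rfl⟩

lemma mu_append (u v : List (α × Bool)) : mu (u ++ v) = imul (mu u) (mu v) := by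
  unfold mu imul
  rw [Pr_append]
  rfl

lemma Pr_invRev (w : List (α × Bool)) : Pr (invRev w) = (mk w)⁻¹ • Pr w := by
  ext x
  rw [Set.mem_inv_smul_set_iff, mem_Pr, mem_Pr]
  constructor
  · rintro ⟨u, v, h, rfl⟩
    have h' : w = invRev v ++ invRev u := by
      rw [← invRev_append, ← h, invRev_invRev]
    refine ⟨invRev v, invRev u, h', ?_⟩
    rw [h', mk_app, ← inv_mk (L := u), smul_eq_mul]
    group
  · rintro ⟨u, v, rfl, h⟩
    refine ⟨invRev v, invRev u, invRev_append, ?_⟩
    rw [← inv_mk]
    rw [mk_app, smul_eq_mul] at h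
    have h2 : mk v * x = 1 := by
      rw [mul_assoc] at h
      exact mul_eq_left.1 h
    exact eq_inv_of_mul_eq_one_right h2

lemma mu_invRev (w : List (α × Bool)) : mu (invRev w) = iinv (mu w) := by
  unfold mu iinv
  rw [Pr_invRev, inv_mk]

/-- inverses in the Munn model are unique -/
lemma iinv_unique {a b : Set (FreeGroup α) × FreeGroup α} (h1 : imul (imul a b) a = a)
    (h2 : imul (imul b a) b = b) : b = iinv a := by
  obtain ⟨T, g⟩ := a
  obtain ⟨T', g'⟩ := b
  unfold imul at h1 h2
  simp only [Prod.mk.injEq] at h1 h2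
  have e : g' = g⁻¹ := by
    have := h1.2
    rw [mul_assoc] at this
    exact eq_inv_of_mul_eq_one_left (mul_eq_left.1 this)
  subst e
  unfold iinv
  refine Prod.ext ?_ rfl
  apply Set.Subset.antisymm
  · intro x hx
    rw [Set.mem_inv_smul_set_iff]
    rw [← h1.1]
    left; right
    exact Set.smul_mem_smul_set hx
  · intro x hx
    rw [← h2.1]
    left; right
    exact hx

variable [DecidableEq α]

/-- `h` lies on the far side of the edge `1 → l` -/
def Side (l : α × Bool) (h : FreeGroup α) : Prop := (toWord h).head? = some l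

omit [DecidableEq α] in
lemma mk_ne_one [DecidableEq α] (l : α × Bool) : (mk [l] : FreeGroup α) ≠ 1 := by
  intro h
  have := congrArg toWord h
  rw [toWord_mk, toWord_one, reduce_singleton] at this
  exact absurd this (by simp)

lemma not_side_one (l : α × Bool) : ¬ Side l (1 : FreeGroup α) := by
  unfold Side
  simp

lemma side_mk (l : α × Bool) : Side l (mk [l] : FreeGroup α) := by
  unfold Side
  rw [toWord_mk, reduce_singleton]
  rfl

/-- the side changes only when crossing the edge -/
lemma side_cross (l m : α × Bool) (h : FreeGroup α) (hs : ¬ (Side l h ↔ Side l (h * mk [m]))) :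
    (h = 1 ∧ m = l) ∨ (h = mk [l] ∧ m = (l.1, !l.2)) := by
  rcases List.eq_nil_or_concat (toWord h) with h0 | ⟨w, c, hw⟩
  · have h1 : h = 1 := toWord_eq_nil_iff.1 h0
    subst h1
    left
    refine ⟨rfl, ?_⟩
    by_contra hne
    apply hs
    rw [one_mul]
    constructor
    · intro h2; exact absurd h2 (not_side_one l)
    · intro h2
      unfold Side at h2
      rw [toWord_mk, reduce_singleton] at h2
      simp only [List.head?_cons, Option.some.injEq] at h2
      exact absurd h2 hne
  · rw [List.concat_eq_append] at hw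
    have hr : IsReduced (w ++ [c]) := by rw [← hw]; exact isReduced_toWord
    have hh : h = mk (w ++ [c]) := by rw [← hw, mk_toWord]
    by_cases hc : m = (c.1, !c.2)
    · have e1 : h * mk [m] = mk w := by
        rw [hh, mk_app, mul_assoc]
        have : (mk [c] : FreeGroup α) * mk [m] = 1 := by
          rw [hc, ← mk_app]
          apply Quot.sound
          exact (Red.Step.not (L₁ := []) (L₂ := []) (x := c.1) (b := c.2))
        rw [this, mul_one]
      have hwr : IsReduced w := List.IsChain.left_of_append hr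
      have e2 : toWord (h * mk [m]) = w := by rw [e1, toWord_mk, hwr.reduce_eq]
      right
      cases w with
      | nil =>
        unfold Side at hs
        rw [e2, hw] at hs
        simp only [List.nil_append, List.head?_cons, Option.some.injEq, List.head?_nil,
          reduceCtorEq, iff_false, not_not] at hs
        subst hs
        refine ⟨?_, hc⟩
        rw [hh]; rfl
      | cons d w' =>
        exfalso
        apply hs
        unfold Side
        rw [e2, hw]
        simp
    · exfalso
      have h2 : IsReduced ([c] ++ [m]) := by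
        show IsReduced (c :: m :: [])
        rw [isReduced_cons_cons]
        refine ⟨?_, IsReduced.singleton⟩
        intro h3
        by_contra h4
        apply hc
        refine Prod.ext h3.symm ?_
        show m.2 = !c.2
        revert h4
        cases m.2 <;> cases c.2 <;> simp
      have h3 : IsReduced (w ++ [c] ++ [m]) := hr.append_overlap h2 (by simp)
      have e2 : toWord (h * mk [m]) = w ++ [c] ++ [m] := by
        rw [hh, ← mk_app, toWord_mk, h3.reduce_eq]
      apply hs
      unfold Side
      rw [e2, hw]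
      cases w <;> simp

/-- if a path never crosses the edge `(g, l)`, all its vertices are on the same side -/
lemma side_path (p : List (α × Bool)) (g : FreeGroup α) (l : α × Bool)
    (h1 : ∀ u v, p = u ++ l :: v → mk u ≠ g)
    (h2 : ∀ u v, p = u ++ (l.1, !l.2) :: v → mk u ≠ g * mk [l]) :
    ∀ x ∈ Pr p, (Side l (g⁻¹ * x) ↔ Side l g⁻¹) := by
  intro x hx
  obtain ⟨u, v, hp, rfl⟩ := mem_Pr.1 hx
  clear hx
  induction u using List.reverseRecOn generalizing v with
  | nil =>
    have : (mk ([] : List (α × Bool)) : FreeGroup α) = 1 := rfl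
    rw [this, mul_one]
  | append_singleton u m ih =>
    rw [← ih (m :: v) (by simp [hp])]
    rw [mk_app, ← mul_assoc]
    by_contra hcon
    have h3 : ¬ (Side l (g⁻¹ * mk u) ↔ Side l (g⁻¹ * mk u * mk [m])) := fun h => hcon h.symm
    rcases side_cross l m (g⁻¹ * mk u) h3 with ⟨h4, rfl⟩ | ⟨h4, rfl⟩
    · refine h1 u v (by simp [hp]) ?_
      exact (inv_mul_eq_one.1 h4).symm
    · refine h2 u v (by simp [hp]) ?_
      rw [← h4]; group

/-- the edges of the Munn tree are traversed -/
lemma edge_mem (p : List (α × Bool)) (g : FreeGroup α) (l : α × Bool) (h1 : g ∈ Pr p)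
    (h2 : g * mk [l] ∈ Pr p) : (∃ u v, p = u ++ l :: v ∧ mk u = g) ∨
      (∃ u v, p = u ++ (l.1, !l.2) :: v ∧ mk u = g * mk [l]) := by
  by_contra hcon
  push Not at hcon
  have h3 := side_path p g l (fun u v h => hcon.1 u v h) (fun u v h => hcon.2 u v h)
  have h4 := h3 g h1
  have h5 := h3 _ h2
  rw [inv_mul_cancel] at h4
  rw [← mul_assoc, inv_mul_cancel, one_mul, ← h4] at h5
  exact not_side_one l (h5.1 (side_mk l))

/-- vertices of a path that avoids the vertex `g * l` stay on the near side -/
lemma side_avoid (p : List (α × Bool)) (g : FreeGroup α) (l : α × Bool) (h1 : g ∈ Pr p)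
    (h2 : g * mk [l] ∉ Pr p) : ∀ x ∈ Pr p, ¬ Side l (g⁻¹ * x) := by
  have h3 := side_path p g l
    (by
      rintro u v rfl rfl
      apply h2
      exact mem_Pr.2 ⟨u ++ [l], v, by simp, rfl⟩)
    (by
      rintro u v rfl h
      apply h2
      rw [← h]
      exact mem_Pr.2 ⟨u, _, rfl, rfl⟩)
  intro x hx h4
  rw [h3 x hx, ← h3 g h1, inv_mul_cancel] at h4
  exact not_side_one l h4

end Pool.Agent.H169R3.FI
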