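import Pool.Agent.H169R3.FI.Munn

set_option autoImplicit false

/-! Substitutions and functoriality of Munn trees. -/

namespace Pool.Agent.H169R3.FI

open Pointwise FreeGroup

variable {α β : Type*}

/-- a letter substitution compatible with inversion -/
def Compat (f : α × Bool → List (β × Bool)) : Prop :=
  ∀ l : α × Bool, f (l.1, !l.2) = invRev (f l)

/-- substitution -/
def sub (f : α × Bool → List (β × Bool)) (p : List (α × Bool)) : List (β × Bool) := p.flatMap f

@[simp] lemma sub_nil (f : α × Bool → List (β × Bool)) : sub f [] = [] := rfl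

lemma sub_cons (f : α × Bool → List (β × Bool)) (l : α × Bool) (p : List (α × Bool)) :
    sub f (l :: p) = f l ++ sub f p := rfl

lemma sub_append (f : α × Bool → List (β × Bool)) (p q : List (α × Bool)) :
    sub f (p ++ q) = sub f p ++ sub f q := List.flatMap_append

lemma sub_singleton (f : α × Bool → List (β × Bool)) (l : α × Bool) : sub f [l] = f l := by
  simp [sub]

lemma invRev_cons' (l : α × Bool) (p : List (α × Bool)) :
    invRev (l :: p) = invRev p ++ [(l.1, !l.2)] := by
  rw [invRev_cons]; rfl

lemma sub_invRev {f : α × Bool → List (β × Bool)} (hf : Compat f) (p : List (α × Bool)) :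
    sub f (invRev p) = invRev (sub f p) := by
  induction p with
  | nil => rfl
  | cons l p ih =>
    rw [invRev_cons', sub_append, ih, sub_singleton, sub_cons, invRev_append, hf l]

/-- the group homomorphism -/
def hom (f : α × Bool → List (β × Bool)) : FreeGroup α →* FreeGroup β :=
  FreeGroup.lift fun a => mk (f (a, true))

lemma hom_mk {f : α × Bool → List (β × Bool)} (hf : Compat f) (p : List (α × Bool)) :
    hom f (mk p) = mk (sub f p) := by
  induction p with
  | nil => exact _root_.map_one _
  | cons l p ih =>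
    have h1 : (mk (l :: p) : FreeGroup α) = mk [l] * mk p := rfl
    rw [h1, _root_.map_mul, ih, sub_cons, mk_app]
    congr 1
    obtain ⟨a, b⟩ := l
    unfold hom
    rw [lift_mk]
    cases b
    · have := hf (a, true)
      simp only [Bool.not_true] at this
      rw [this]
      simp [inv_mk]
    · simp

lemma hom_singleton {f : α × Bool → List (β × Bool)} (hf : Compat f) (l : α × Bool) :
    hom f (mk [l]) = mk (f l) := by
  rw [hom_mk hf, sub_singleton]

lemma mem_Pr_sub {f : α × Bool → List (β × Bool)} (hf : Compat f) (p : List (α × Bool))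
    (x : FreeGroup β) : x ∈ Pr (sub f p) ↔
      x = 1 ∨ ∃ u l v, p = u ++ l :: v ∧ x ∈ hom f (mk u) • Pr (f l) := by
  induction p using List.reverseRecOn with
  | nil => simp
  | append_singleton p m ih =>
    rw [sub_append, Pr_append, Set.mem_union, ih, sub_singleton]
    constructor
    · rintro ((h | ⟨u, l, v, rfl, h⟩) | h)
      · exact Or.inl h
      · exact Or.inr ⟨u, l, v ++ [m], by simp, h⟩
      · exact Or.inr ⟨p, m, [], rfl, by rw [hom_mk hf]; exact h⟩
    · rintro (h | ⟨u, l, v, h1, h⟩)
      · exact Or.inl (Or.inl h)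
      · rcases List.eq_nil_or_concat v with rfl | ⟨w, c, rfl⟩
        · obtain ⟨rfl, h2⟩ := List.append_inj' h1 rfl
          simp only [List.cons.injEq, and_true] at h2
          subst h2
          right
          rw [hom_mk hf] at h
          exact h
        · left; right
          rw [List.concat_eq_append, ← List.cons_append, ← List.append_assoc] at h1
          exact ⟨u, l, w, (List.append_inj' h1 rfl).1, h⟩

variable [DecidableEq α]

omit [DecidableEq α] in
lemma smul_flip {f : α × Bool → List (β × Bool)} (hf : Compat f) (g : FreeGroup α)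
    (l : α × Bool) : hom f (g * mk [l]) • Pr (f (l.1, !l.2)) = hom f g • Pr (f l) := by
  rw [hf l, Pr_invRev, smul_smul, _root_.map_mul, hom_singleton hf, mul_inv_cancel_right]

/-- the image of an edge of the Munn tree is in the image path -/
lemma edge_sub {f : α × Bool → List (β × Bool)} (hf : Compat f) (q : List (α × Bool))
    (g : FreeGroup α) (l : α × Bool) (h1 : g ∈ Pr q) (h2 : g * mk [l] ∈ Pr q) :
    hom f g • Pr (f l) ⊆ Pr (sub f q) := by
  rcases edge_mem q g l h1 h2 with ⟨u, v, h3, h4⟩ | ⟨u, v, h3, h4⟩
  · intro x hx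
    rw [mem_Pr_sub hf]
    right
    exact ⟨u, l, v, h3, by rw [h4]; exact hx⟩
  · intro x hx
    rw [mem_Pr_sub hf]
    right
    refine ⟨u, _, v, h3, ?_⟩
    rw [h4, smul_flip hf]
    exact hx

lemma Pr_sub_mono {f : α × Bool → List (β × Bool)} (hf : Compat f) {p q : List (α × Bool)}
    (h : Pr p ⊆ Pr q) : Pr (sub f p) ⊆ Pr (sub f q) := by
  intro x hx
  rw [mem_Pr_sub hf] at hx
  rcases hx with rfl | ⟨u, l, v, rfl, hx⟩
  · exact one_mem_Pr _
  · refine edge_sub hf q (mk u) l (h ?_) (h ?_) hx
    · exact mem_Pr.2 ⟨u, _, rfl, rfl⟩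
    · exact mem_Pr.2 ⟨u ++ [l], v, by simp, rfl⟩

/-- Munn trees are functorial -/
lemma mu_sub {f : α × Bool → List (β × Bool)} (hf : Compat f) {p q : List (α × Bool)}
    (h : mu p = mu q) : mu (sub f p) = mu (sub f q) := by
  have h1 : Pr p = Pr q := congrArg Prod.fst h
  have h2 : (mk p : FreeGroup α) = mk q := congrArg Prod.snd h
  refine Prod.ext ?_ ?_
  · exact Set.Subset.antisymm (Pr_sub_mono hf h1.le) (Pr_sub_mono hf h1.ge)
  · show mk (sub f p) = mk (sub f q)
    rw [← hom_mk hf, ← hom_mk hf, h2]

omit [DecidableEq α] in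
lemma eq_nil_of_mu {p : List (α × Bool)} (h : mu p = mu ([] : List (α × Bool))) : p = [] := by
  classical
  have h1 : Pr p = Pr ([] : List (α × Bool)) := congrArg Prod.fst h
  rw [Pr_nil] at h1
  cases p with
  | nil => rfl
  | cons l p =>
    exfalso
    have : (mk [l] : FreeGroup α) ∈ Pr (l :: p) := mem_Pr.2 ⟨[l], p, rfl, rfl⟩
    rw [h1] at this
    exact mk_ne_one l this

end Pool.Agent.H169R3.FI
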